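import Pool.Agent.Q78.Z3.Fin

set_option autoImplicit false

/-! Self-avoiding walks on `ℤ³` in a random domain: means of functions of the end point. -/

namespace Q78.Z3

open Finset Filter Topology MeasureTheory TH966.KO BR
open KN hiding SAP Inv K a bad mem_K S_ins_proof S_rem_proof S_change_proof
open scoped Classical

noncomputable section

/-- the sum of a (random) function of the end point over the walks in a random domain -/
def TT {Ω : Type} [MeasurableSpace Ω] (ν : Measure Ω) (R : Ω → V3 → V3 → Prop) (f : Ω → V3 → ℝ)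
    (n : ℕ) : ℝ := ∫ ω, ∑ w ∈ KR (R ω) n, f ω (E (pos w)) ∂ν

/-- the uniform law on `(0, 1]` -/
def lam : Measure ℝ := volume.restrict (Set.Ioc 0 1)

instance lam_prob : IsProbabilityMeasure lam := by
  refine ⟨?_⟩
  unfold lam
  rw [Measure.restrict_apply MeasurableSet.univ, Set.univ_inter, Real.volume_Ioc]
  simp

theorem lam_Iic {a : ℝ} (h0 : 0 ≤ a) (h1 : a ≤ 1) : lam.real (Set.Iic a) = a := by
  unfold lam
  rw [Measure.real, Measure.restrict_apply measurableSet_Iic]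
  have e : Set.Iic a ∩ Set.Ioc 0 1 = Set.Ioc 0 a := by
    ext x
    simp only [Set.mem_inter_iff, Set.mem_Iic, Set.mem_Ioc]
    constructor
    · rintro ⟨h, h2, h3⟩
      exact ⟨h2, h⟩
    · rintro ⟨h, h2⟩
      exact ⟨h2, h, h2.trans h1⟩
  rw [e, Real.volume_Ioc, sub_zero, ENNReal.toReal_ofReal h0]

/-- the random threshold -/
def RU {Ω : Type} (R : Ω → V3 → V3 → Prop) (f : Ω → V3 → ℝ) : Ω × ℝ → V3 → V3 → Prop :=
  fun z e x => R z.1 e x ∧ z.2 ≤ f z.1 e

theorem RU_meas {Ω : Type} [MeasurableSpace Ω] {R : Ω → V3 → V3 → Prop} {f : Ω → V3 → ℝ}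
    (hR : ∀ e x, MeasurableSet {ω | R ω e x}) (hf : ∀ e, Measurable fun ω => f ω e) (e x : V3) :
    MeasurableSet {z : Ω × ℝ | RU R f z e x} := by
  have h1 : MeasurableSet {z : Ω × ℝ | R z.1 e x} := measurable_fst (hR e x)
  have h2 : MeasurableSet {z : Ω × ℝ | z.2 ≤ f z.1 e} :=
    measurableSet_le measurable_snd ((hf e).comp measurable_fst)
  exact h1.inter h2

theorem path_ne (w : List Dir) : ∃ p, p ∈ path w := by
  have := path_length w
  cases h : path w with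
  | nil => rw [h] at this; simp at this
  | cons a l => exact ⟨a, by simp⟩

theorem KR_RU {Ω : Type} (R : Ω → V3 → V3 → Prop) (f : Ω → V3 → ℝ) (n : ℕ) (z : Ω × ℝ) :
    KR (RU R f z) n = (KR (R z.1) n).filter (fun w => z.2 ≤ f z.1 (E (pos w))) := by
  ext w
  rw [Finset.mem_filter, mem_KR, mem_KR]
  unfold RU
  constructor
  · rintro ⟨h1, h2⟩
    obtain ⟨p, hp⟩ := path_ne w
    exact ⟨⟨h1, fun p hp => (h2 p hp).1⟩, (h2 p hp).2⟩
  · rintro ⟨⟨h1, h2⟩, h3⟩
    exact ⟨h1, fun p hp => ⟨h2 p hp, h3⟩⟩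

/-- **random thresholds** -/
theorem FF_RU {Ω : Type} [MeasurableSpace Ω] (ν : Measure Ω) [IsProbabilityMeasure ν]
    {R : Ω → V3 → V3 → Prop} {f : Ω → V3 → ℝ} (hR : ∀ e x, MeasurableSet {ω | R ω e x})
    (hf : ∀ e, Measurable fun ω => f ω e) (h0 : ∀ ω e, 0 ≤ f ω e) (h1 : ∀ ω e, f ω e ≤ 1) (n : ℕ) :
    FF (ν.prod lam) (RU R f) n = TT ν R f n := by
  unfold FF TT
  rw [integral_prod _ (integrable_card (ν.prod lam) (RU_meas hR hf) n)]
  congr 1
  funext ω
  have e : (fun u => ((KR (RU R f (ω, u)) n).card : ℝ)) = fun u =>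
      ∑ w ∈ KR (R ω) n, (Set.Iic (f ω (E (pos w)))).indicator (fun _ => (1 : ℝ)) u := by
    funext u
    rw [KR_RU, Finset.card_filter]
    push_cast
    refine Finset.sum_congr rfl fun w _ => ?_
    rw [Set.indicator_apply]
    rfl
  rw [e, integral_finsetSum _ fun w _ =>
    (integrable_const (1 : ℝ)).indicator measurableSet_Iic]
  refine Finset.sum_congr rfl fun w _ => ?_
  rw [integral_indicator_const _ measurableSet_Iic, smul_eq_mul, mul_one, lam_Iic (h0 _ _) (h1 _ _)]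

/-- the end points of a walk -/
theorem l1_pos : ∀ w : List Dir, ∑ j, |E (pos w) j| ≤ w.length := by
  intro w
  induction w with
  | nil =>
    have : E (pos []) = 0 := by
      show E 0 = 0
      exact E_zero
    rw [this]
    simp
  | cons d w ih =>
    have e : E (pos (d :: w)) = E (pos w) + E (vec d) := by
      show E (pos w + vec d) = _
      exact E_add _ _
    have hv : ∑ j, |E (vec d) j| = 1 := by
      cases d <;> simp [E, vec, Fin.sum_univ_three]
    rw [e, List.length_cons]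
    push_cast
    calc ∑ j, |(E (pos w) + E (vec d)) j| ≤ ∑ j, (|E (pos w) j| + |E (vec d) j|) :=
          Finset.sum_le_sum fun j _ => abs_add_le _ _
      _ = ∑ j, |E (pos w) j| + ∑ j, |E (vec d) j| := Finset.sum_add_distrib
      _ ≤ _ := by rw [hv]; linarith

theorem pos_ne {w : List Dir} (hw : SAW w) (h1 : 1 ≤ w.length) : E (pos w) ≠ 0 := by
  intro h
  rw [← E_zero] at h
  have h2 := E_inj h
  have h3 : pos (w.drop 0) = pos (w.drop w.length) := by
    rw [List.drop_zero, List.drop_length]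
    exact h2
  have := saw_inj hw (Nat.zero_le _) le_rfl h3
  omega

/-- the admissible end points -/
def Adm (n : ℕ) (e : V3) : Prop := e ≠ 0 ∧ ∑ j, |e j| ≤ n

theorem adm_of {R : V3 → V3 → Prop} {m n : ℕ} (h1 : 1 ≤ m) (hmn : m ≤ n) {w : List Dir}
    (hw : w ∈ KR R m) : Adm n (E (pos w)) := by
  rw [mem_KR] at hw
  obtain ⟨⟨hl, hs⟩, -⟩ := hw
  refine ⟨pos_ne hs (by omega), (l1_pos w).trans ?_⟩
  rw [hl]
  exact_mod_cast hmn

theorem TT_congr {Ω : Type} [MeasurableSpace Ω] (ν : Measure Ω) (R : Ω → V3 → V3 → Prop)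
    {f g : Ω → V3 → ℝ} {m n : ℕ} (h1 : 1 ≤ m) (hmn : m ≤ n)
    (h : ∀ ω e, Adm n e → f ω e = g ω e) : TT ν R f m = TT ν R g m := by
  unfold TT
  congr 1
  funext ω
  exact Finset.sum_congr rfl fun w hw => h _ _ (adm_of h1 hmn hw)

theorem integrable_TT {Ω : Type} [MeasurableSpace Ω] (ν : Measure Ω) [IsProbabilityMeasure ν]
    {R : Ω → V3 → V3 → Prop} {f : Ω → V3 → ℝ} (hR : ∀ e x, MeasurableSet {ω | R ω e x})
    (hf : ∀ e, Measurable fun ω => f ω e) {B : ℝ} (hB : ∀ ω e, |f ω e| ≤ B) (n : ℕ) :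
    Integrable (fun ω => ∑ w ∈ KR (R ω) n, f ω (E (pos w))) ν := by
  have e : (fun ω => ∑ w ∈ KR (R ω) n, f ω (E (pos w))) = fun ω => ∑ w ∈ SS n,
      Set.indicator {ω | ∀ p ∈ path w, R ω (E (pos w)) (E p)} (fun ω => f ω (E (pos w))) ω := by
    funext ω
    unfold KR
    rw [Finset.sum_filter]
    refine Finset.sum_congr rfl fun w _ => ?_
    rw [Set.indicator_apply]
    rfl
  rw [e]
  refine integrable_finsetSum _ fun w _ => ?_
  refine Integrable.indicator ?_ (meas_set hR w)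
  exact Integrable.of_bound (hf _).aestronglyMeasurable B (Filter.Eventually.of_forall fun ω => hB _ _)

theorem TT_const {Ω : Type} [MeasurableSpace Ω] (ν : Measure Ω) (R : Ω → V3 → V3 → Prop) (c : ℝ)
    (n : ℕ) : TT ν R (fun _ _ => c) n = c * FF ν R n := by
  unfold TT FF
  rw [← integral_const_mul]
  congr 1
  funext ω
  rw [Finset.sum_const, nsmul_eq_mul, mul_comm]

theorem TT_smul {Ω : Type} [MeasurableSpace Ω] (ν : Measure Ω) (R : Ω → V3 → V3 → Prop)
    (f : Ω → V3 → ℝ) (c : ℝ) (n : ℕ) : TT ν R (fun ω e => c * f ω e) n = c * TT ν R f n := by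
  unfold TT
  rw [← integral_const_mul]
  congr 1
  funext ω
  rw [Finset.mul_sum]

theorem TT_mono {Ω : Type} [MeasurableSpace Ω] (ν : Measure Ω) [IsProbabilityMeasure ν]
    {R : Ω → V3 → V3 → Prop} {f g : Ω → V3 → ℝ} (hR : ∀ e x, MeasurableSet {ω | R ω e x})
    (hf : ∀ e, Measurable fun ω => f ω e) (hg : ∀ e, Measurable fun ω => g ω e) {B : ℝ}
    (hB : ∀ ω e, |f ω e| ≤ B) (hB' : ∀ ω e, |g ω e| ≤ B) {m n : ℕ} (h1 : 1 ≤ m) (hmn : m ≤ n)
    (h : ∀ ω e, Adm n e → f ω e ≤ g ω e) : TT ν R f m ≤ TT ν R g m := by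
  unfold TT
  refine integral_mono (integrable_TT ν hR hf hB m) (integrable_TT ν hR hg hB' m) fun ω => ?_
  exact Finset.sum_le_sum fun w hw => h _ _ (adm_of h1 hmn hw)

/-- quotient of two ratios -/
theorem quot_two {x y e : ℝ} (he : e ≤ 1 / 2) (hx : |x - 1| ≤ e) (hy : |y - 1| ≤ e) :
    |x / y - 1| ≤ 4 * e := by
  rw [abs_le] at hx hy
  have hy0 : 0 < y := by linarith
  have h1 : x / y - 1 = (x - y) / y := by field_simp
  rw [h1, abs_div, abs_of_pos hy0, div_le_iff₀ hy0, abs_le]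
  constructor <;> nlinarith

/-- **means of functions of the end point in a random domain** -/
theorem means (ε : ℝ) (hε : 0 < ε) (hε1 : ε < 2 / 3) : ∃ (C δ : ℝ) (N : ℕ), 0 < C ∧ 0 < δ ∧
    ∀ (Ω : Type) [MeasurableSpace Ω] (ν : Measure Ω) [IsProbabilityMeasure ν]
      (R : Ω → V3 → V3 → Prop), (∀ e x, MeasurableSet {ω | R ω e x}) →
      ∀ n, N ≤ n → Real.exp (-δ * n) ≤ PP ν R n →
      ∀ (f : Ω → V3 → ℝ) (s b : ℝ), (∀ e, Measurable fun ω => f ω e) → 0 < s → 0 ≤ b → b ≤ δ * n →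
        (∀ ω e, Adm (n + 2) e → s ≤ f ω e ∧ f ω e ≤ s * Real.exp b) →
        |TT ν R f (n + 2) / FF ν R (n + 2) / (TT ν R f n / FF ν R n) - 1| ≤
          C * √((Real.log (1 / PP ν R n) + b + (n : ℝ) ^ (1 / 3 + ε)) / n) ∧
        ∀ (R' : Ω → V3 → V3 → Prop) (g : Ω → V3 → ℝ), (∀ e x, MeasurableSet {ω | R' ω e x}) →
          (∀ ω e x, R' ω e x → R ω e x) → (∀ e, Measurable fun ω => g ω e) →
          (∀ ω e, Adm (n + 2) e → 0 ≤ g ω e ∧ g ω e ≤ f ω e) →
          |TT ν R' g (n + 2) / TT ν R f (n + 2) - TT ν R' g n / TT ν R f n| ≤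
            C * √((Real.log (1 / PP ν R n) + b + (n : ℝ) ^ (1 / 3 + ε)) / n) := by
  obtain ⟨C, δ, N, hC, hδ, hN, hrat⟩ := ratios ε hε hε1
  obtain ⟨δ', hδ'⟩ : ∃ δ', δ' = min (δ / 2) (1 / (16 * C ^ 2)) := ⟨_, rfl⟩
  have hδ'0 : 0 < δ' := by rw [hδ']; exact lt_min (by linarith) (by positivity)
  have hδ'1 : δ' ≤ δ / 2 := by rw [hδ']; exact min_le_left _ _
  have hδ'2 : δ' ≤ 1 / (16 * C ^ 2) := by rw [hδ']; exact min_le_right _ _
  obtain ⟨N1, hN1⟩ := eventually_atTop.1 ((rpow_div_tendsto (α := 1 / 3 + ε) (by linarith)).eventually_le_const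
    (show (0 : ℝ) < 1 / (8 * C ^ 2) by positivity))
  refine ⟨4 * C, δ', max N N1, by positivity, hδ'0, ?_⟩
  intro Ω _ ν _ R hR n hn hp f s b hf hs hb0 hb hfs
  have hnN : N ≤ n := (le_max_left _ _).trans hn
  have hnN1 : N1 ≤ n := (le_max_right _ _).trans hn
  have hn0 : (0 : ℝ) < n := by
    have : 0 < n := by omega
    exact_mod_cast this
  have hpp : 0 < PP ν R n := lt_of_lt_of_le (Real.exp_pos _) hp
  have hlog0 : 0 ≤ Real.log (1 / PP ν R n) := Real.log_nonneg (by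
    rw [le_div_iff₀ hpp]; linarith [PP_le ν hR n])
  have hlog1 : Real.log (1 / PP ν R n) ≤ δ' * n := by
    rw [one_div, Real.log_inv]
    have := Real.log_le_log (Real.exp_pos _) hp
    rw [Real.log_exp] at this
    linarith
  obtain ⟨B, hB⟩ : ∃ B, B = Real.log (1 / PP ν R n) + b := ⟨_, rfl⟩
  have hBδ : B ≤ δ * n := by
    have := mul_le_mul_of_nonneg_right hδ'1 hn0.le
    rw [hB]
    linarith
  have hB0 : 0 ≤ B := by rw [hB]; linarith
  have hlogB : Real.log (1 / PP ν R n) ≤ B := by rw [hB]; linarith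
  rw [← hB]
  obtain ⟨r, hr⟩ : ∃ r, r = √((B + (n : ℝ) ^ (1 / 3 + ε)) / n) := ⟨_, rfl⟩
  rw [← hr]
  have hr0 : 0 ≤ r := by rw [hr]; exact Real.sqrt_nonneg _
  have hrsq : (B + (n : ℝ) ^ (1 / 3 + ε)) / n ≤ (1 / (2 * C)) ^ 2 := by
    rw [add_div]
    have h1 := hN1 n hnN1
    have h2 : B / n ≤ 2 * δ' := by
      rw [div_le_iff₀ hn0, hB]
      linarith
    have e : (1 / (2 * C)) ^ 2 = 2 * (1 / (16 * C ^ 2)) + 1 / (8 * C ^ 2) := by
      field_simp
      ring
    rw [e]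
    linarith
  have hCr : C * r ≤ 1 / 2 := by
    have h1 : r ≤ 1 / (2 * C) := by
      rw [hr]
      exact Real.sqrt_le_iff.2 ⟨by positivity, hrsq⟩
    calc C * r ≤ C * (1 / (2 * C)) := mul_le_mul_of_nonneg_left h1 hC.le
      _ = 1 / 2 := by field_simp
  -- the two truncated functions
  obtain ⟨S, hS⟩ : ∃ S, S = s * Real.exp b := ⟨_, rfl⟩
  have hS0 : 0 < S := by rw [hS]; positivity
  rw [← hS] at hfs
  obtain ⟨F, hF⟩ : ∃ F : (Ω → V3 → ℝ) → Ω → V3 → ℝ,
      F = fun f ω e => if Adm (n + 2) e then f ω e / S else 0 := ⟨_, rfl⟩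
  have hFm : ∀ g : Ω → V3 → ℝ, (∀ e, Measurable fun ω => g ω e) →
      ∀ e, Measurable fun ω => F g ω e := by
    intro g hg e
    rw [hF]
    by_cases h : Adm (n + 2) e
    · simp only [h, if_true]
      exact (hg e).div_const _
    · simp only [h, if_false]
      exact measurable_const
  have hF01 : ∀ g : Ω → V3 → ℝ, (∀ ω e, Adm (n + 2) e → 0 ≤ g ω e ∧ g ω e ≤ f ω e) →
      (∀ ω e, 0 ≤ F g ω e) ∧ (∀ ω e, F g ω e ≤ 1) ∧ ∀ ω e, F g ω e ≤ F f ω e := by
    intro g hg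
    rw [hF]
    refine ⟨fun ω e => ?_, fun ω e => ?_, fun ω e => ?_⟩
    · by_cases h : Adm (n + 2) e
      · simp only [h, if_true]
        exact div_nonneg (hg ω e h).1 hS0.le
      · simp only [h, if_false, le_refl]
    · by_cases h : Adm (n + 2) e
      · simp only [h, if_true]
        rw [div_le_one hS0]
        exact (hg ω e h).2.trans (hfs ω e h).2
      · simp only [h, if_false, zero_le_one]
    · by_cases h : Adm (n + 2) e
      · simp only [h, if_true]
        exact div_le_div_of_nonneg_right (hg ω e h).2 hS0.le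
      · simp only [h, if_false, le_refl]
  have hff : ∀ ω e, Adm (n + 2) e → 0 ≤ f ω e ∧ f ω e ≤ f ω e := fun ω e h =>
    ⟨hs.le.trans (hfs ω e h).1, le_rfl⟩
  have hTF : ∀ (R : Ω → V3 → V3 → Prop) (g : Ω → V3 → ℝ) (m : ℕ), 1 ≤ m → m ≤ n + 2 →
      TT ν R (F g) m = 1 / S * TT ν R g m := by
    intro R g m h1 h2
    rw [← TT_smul]
    refine TT_congr ν R h1 h2 fun ω e h => ?_
    rw [hF]
    simp only [h, if_true]
    ring
  obtain ⟨f0, f1, -⟩ := hF01 f hff
  have hFF : ∀ m, FF (ν.prod lam) (RU R (F f)) m = TT ν R (F f) m := fun m =>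
    FF_RU ν hR (hFm f hf) f0 f1 m
  have hc0 : 0 < (c n : ℝ) := c_pos n
  have hn1 : 1 ≤ n := by omega
  -- lower bound
  have hlow : Real.exp (-b) * FF ν R n ≤ TT ν R (F f) n := by
    rw [← TT_const]
    refine TT_mono ν hR (fun _ => measurable_const) (hFm f hf) (B := 1) (fun ω e => ?_)
      (fun ω e => ?_) (m := n) (n := n + 2) hn1 (by omega) (fun ω e h => ?_)
    · rw [abs_of_pos (Real.exp_pos _)]
      exact Real.exp_le_one_iff.2 (by linarith)
    · rw [abs_of_nonneg (f0 ω e)]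
      exact f1 ω e
    · rw [hF]
      simp only [h, if_true]
      rw [le_div_iff₀ hS0, hS]
      calc Real.exp (-b) * (s * Real.exp b) = s * (Real.exp (-b) * Real.exp b) := by ring
        _ = s := by rw [← Real.exp_add, neg_add_cancel, Real.exp_zero, mul_one]
        _ ≤ f ω e := (hfs ω e h).1
  have hPP' : Real.exp (-b) * PP ν R n ≤ PP (ν.prod lam) (RU R (F f)) n := by
    unfold PP
    rw [hFF, ← mul_div_assoc]
    exact div_le_div_of_nonneg_right hlow hc0.le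
  have hlogP : Real.log (1 / PP (ν.prod lam) (RU R (F f)) n) ≤ B := by
    rw [hB, one_div, Real.log_inv, one_div, Real.log_inv]
    have h := Real.log_le_log (by positivity) hPP'
    rw [Real.log_mul (Real.exp_pos _).ne' hpp.ne', Real.log_exp] at h
    linarith
  have hexpP : Real.exp (-δ * n) ≤ PP (ν.prod lam) (RU R (F f)) n := by
    refine le_trans ?_ hPP'
    refine le_trans ?_ (mul_le_mul_of_nonneg_left hp (Real.exp_pos _).le)
    rw [← Real.exp_add]
    refine Real.exp_le_exp.2 ?_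
    have := mul_le_mul_of_nonneg_right hδ'1 hn0.le
    linarith
  obtain ⟨k1, k2⟩ := hrat (Ω × ℝ) (ν.prod lam) (RU R (F f)) (RU_meas hR (hFm f hf)) n hnN hexpP B hB0
    hBδ hlogP
  have hexp0 : Real.exp (-δ * n) ≤ PP ν R n := by
    refine le_trans (Real.exp_le_exp.2 ?_) hp
    have := mul_le_mul_of_nonneg_right hδ'1 hn0.le
    have h2 : 0 ≤ δ / 2 * n := by positivity
    linarith
  obtain ⟨l1, -⟩ := hrat Ω ν R hR n hnN hexp0 B hB0 hBδ hlogB
  rw [← hr] at k1 k2 l1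
  rw [hFF, hFF, hTF R f n hn1 (by omega), hTF R f (n + 2) (by omega) le_rfl] at k1
  have hμ : 0 < μ := by linarith [mu_one]
  have hFn : 0 < FF ν R n := by
    have : PP ν R n * c n = FF ν R n := by
      unfold PP
      field_simp
    rw [← this]
    positivity
  have hTn : 0 < TT ν R f n := by
    have h1 := hTF R f n hn1 (by omega)
    have h2 : 0 < TT ν R (F f) n := lt_of_lt_of_le (by positivity) hlow
    rw [h1] at h2
    exact pos_of_mul_pos_right h2 (by positivity) |> fun h => h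
  refine ⟨?_, ?_⟩
  · have h3 := quot_two hCr k1 l1
    have e : 1 / S * TT ν R f (n + 2) / (μ ^ 2 * (1 / S * TT ν R f n)) /
        (FF ν R (n + 2) / (μ ^ 2 * FF ν R n)) =
        TT ν R f (n + 2) / FF ν R (n + 2) / (TT ν R f n / FF ν R n) := by
      field_simp
    rw [e] at h3
    calc _ ≤ 4 * (C * r) := h3
      _ = 4 * C * r := by ring
  · intro R' g hR' hsub hg hgf
    obtain ⟨g0, g1, g2⟩ := hF01 g hgf
    have h3 := k2 (RU R' (F g)) (RU_meas hR' (hFm g hg)) (fun z e x h =>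
      ⟨hsub _ _ _ h.1, h.2.trans (g2 _ _)⟩)
    have hGG : ∀ m, FF (ν.prod lam) (RU R' (F g)) m = TT ν R' (F g) m := fun m =>
      FF_RU ν hR' (hFm g hg) g0 g1 m
    rw [hGG, hGG, hFF, hFF, hTF R f n hn1 (by omega), hTF R f (n + 2) (by omega) le_rfl,
      hTF R' g n hn1 (by omega), hTF R' g (n + 2) (by omega) le_rfl,
      mul_div_mul_left _ _ (by positivity), mul_div_mul_left _ _ (by positivity)] at h3
    refine h3.trans ?_
    have : 0 ≤ C * r := by positivity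
    linarith

/-- the Euclidean norm -/
def nrm (e : V3) : ℝ := √(∑ j, (e j : ℝ) ^ 2)

theorem nrm_adm {n : ℕ} {e : V3} (h : Adm n e) : 1 ≤ nrm e ∧ nrm e ≤ n := by
  obtain ⟨h1, h2⟩ := h
  unfold nrm
  constructor
  · rw [Real.one_le_sqrt]
    obtain ⟨j, hj⟩ : ∃ j, e j ≠ 0 := by
      by_contra hc
      push Not at hc
      exact h1 (funext hc)
    have h3 : (1 : ℝ) ≤ (e j : ℝ) ^ 2 := by
      have : 1 ≤ (e j) ^ 2 := by
        have := Int.one_le_abs hj
        rw [← sq_abs]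
        nlinarith
      exact_mod_cast this
    exact h3.trans (Finset.single_le_sum (f := fun j => (e j : ℝ) ^ 2) (fun _ _ => sq_nonneg _)
      (Finset.mem_univ j))
  · rw [Real.sqrt_le_iff]
    refine ⟨Nat.cast_nonneg _, ?_⟩
    have h3 : (∑ j, |(e j : ℝ)|) ≤ n := by exact_mod_cast h2
    have h4 : ∑ j, (e j : ℝ) ^ 2 ≤ (∑ j, |(e j : ℝ)|) ^ 2 := by
      have e1 : ∑ j, (e j : ℝ) ^ 2 = ∑ j, |(e j : ℝ)| ^ 2 :=
        Finset.sum_congr rfl fun j _ => (sq_abs _).symm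
      rw [e1]
      exact Finset.sum_sq_le_sq_sum_of_nonneg fun j _ => abs_nonneg _
    refine h4.trans ?_
    exact pow_le_pow_left₀ (Finset.sum_nonneg fun j _ => abs_nonneg _) h3 2

/-- powers of the norm -/
theorem pow_bounds {n : ℕ} (q : ℝ) {e : V3} (h : Adm (n + 2) e) :
    Real.exp (min q 0 * Real.log (n + 2)) ≤ nrm e ^ q ∧
    nrm e ^ q ≤ Real.exp (min q 0 * Real.log (n + 2)) * Real.exp (|q| * Real.log (n + 2)) := by
  obtain ⟨h1, h2⟩ := nrm_adm h
  push_cast at h2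
  have h0 : 0 < nrm e := by linarith
  have hl : 0 ≤ Real.log (nrm e) := Real.log_nonneg h1
  have hl2 : Real.log (nrm e) ≤ Real.log (n + 2) := Real.log_le_log h0 h2
  rw [← Real.exp_add, Real.rpow_def_of_pos h0]
  rcases le_total 0 q with hq | hq
  · rw [min_eq_right hq, abs_of_nonneg hq]
    constructor
    · refine Real.exp_le_exp.2 ?_
      nlinarith
    · refine Real.exp_le_exp.2 ?_
      nlinarith
  · rw [min_eq_left hq, abs_of_nonpos hq]
    constructor
    · refine Real.exp_le_exp.2 ?_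
      nlinarith
    · refine Real.exp_le_exp.2 ?_
      nlinarith

/-- the mean as a sum over functions -/
theorem sum_fun (R : V3 → V3 → Prop) (f : V3 → ℝ) (n : ℕ) :
    ∑ᶠ w : {w : Fin (n + 1) → Fin 3 → ℤ // IsSAW n w ∧ ∀ i, R (w (Fin.last n)) (w i)},
      f (w.1 (Fin.last n)) = ∑ w ∈ KR R n, f (E (pos w)) := by
  have e1 : ∑ᶠ w : {w : Fin (n + 1) → Fin 3 → ℤ // IsSAW n w ∧ ∀ i, R (w (Fin.last n)) (w i)},
      f (w.1 (Fin.last n)) = ∑ᶠ w ∈ {w : Fin (n + 1) → Fin 3 → ℤ | IsSAW n w ∧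
        ∀ i, R (w (Fin.last n)) (w i)}, f (w (Fin.last n)) :=
    finsum_set_coe_eq_finsum_mem (f := fun w : Fin (n + 1) → Fin 3 → ℤ => f (w (Fin.last n)))
      {w : Fin (n + 1) → Fin 3 → ℤ | IsSAW n w ∧ ∀ i, R (w (Fin.last n)) (w i)}
  have hsub : ((KR R n : Finset (List Dir)) : Set (List Dir)) ⊆ (SS n : Set (List Dir)) :=
    Finset.coe_subset.2 (Finset.filter_subset _ _)
  rw [e1, ← finsum_mem_coe_finset]
  symm
  refine finsum_mem_eq_of_bijOn (wk n) ⟨?_, (bij n).injOn.mono hsub, ?_⟩ ?_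
  · intro w hw
    have hw1 := mem_KR.1 (Finset.mem_coe.1 hw)
    refine ⟨(bij n).mapsTo (hsub hw), ?_⟩
    rw [wk_last hw1.1.1]
    exact (path_wk hw1.1.1 _).1 hw1.2
  · rintro g ⟨hg, hR⟩
    obtain ⟨w, hw, rfl⟩ := (bij n).surjOn hg
    have hw1 := mem_SS.1 (Finset.mem_coe.1 hw)
    rw [wk_last hw1.1] at hR
    exact ⟨w, Finset.mem_coe.2 (mem_KR.2 ⟨hw1, (path_wk hw1.1 _).2 hR⟩), rfl⟩
  · intro w hw
    have hw1 := mem_KR.1 (Finset.mem_coe.1 hw)
    rw [wk_last hw1.1.1]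

end

end Q78.Z3
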