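import Pool.Agent.Q78.Z3.Loc
import Pool.Agent.Q294.Sp1

set_option autoImplicit false

/-! Approximately log-convex sequences: control of all terms from a sparse set of terms. -/

namespace Q78.Z3

open Finset Filter Topology TH966.KS

/-- slowly varying exponents -/
def Slow (ψ : ℕ → ℝ) : Prop :=
  ∃ B : ℝ, ∀ m n : ℕ, 1 ≤ m → m ≤ n → |ψ n - ψ m| ≤ B * (((n : ℝ) - m) / m)

/-- gaps -/
def Gap (S : Set ℕ) (δ : ℝ) (E : ℕ → ℝ) : Prop :=
  ∀ᶠ n : ℕ in atTop, ∃ k ∈ S, n ≤ k ∧ (k : ℝ) ≤ n + δ * √(n * E n)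

theorem Slow.zero {ψ : ℕ → ℝ} (h : Slow ψ) : Tendsto (fun n : ℕ => ψ n / n) atTop (𝓝 0) := by
  obtain ⟨B, hB⟩ := h
  rw [Metric.tendsto_atTop']
  intro ε hε
  obtain ⟨m, hm⟩ := exists_nat_gt (2 * |B| / ε + 1)
  have hm0 : (0 : ℝ) < m := lt_of_le_of_lt (by positivity) hm
  have hm1 : 1 ≤ m := by
    have : 0 < m := by exact_mod_cast hm0
    omega
  have h1 : |B| / m < ε / 2 := by
    have h2 : 2 * |B| / ε < m := by linarith
    rw [div_lt_iff₀ hε] at h2
    rw [div_lt_iff₀ hm0]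
    linarith
  have h3 : Tendsto (fun n : ℕ => |ψ m| / (n : ℝ)) atTop (𝓝 0) :=
    tendsto_const_div_atTop_nhds_zero_nat _
  obtain ⟨N, hN⟩ := eventually_atTop.1 (h3.eventually_lt_const (show 0 < ε / 2 by linarith))
  refine ⟨max N m, fun n hn => ?_⟩
  have hnm : m ≤ n := (le_max_right _ _).trans hn.le
  have hn0 : (0 : ℝ) < n := lt_of_lt_of_le hm0 (by exact_mod_cast hnm)
  have h4 := hN n ((le_max_left _ _).trans hn.le)
  have h5 := hB m n hm1 hnm
  have h6 : |ψ n| ≤ |ψ m| + |B| / m * n := by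
    have h7 : |ψ n| ≤ |ψ m| + |ψ n - ψ m| := by
      have := abs_add_le (ψ m) (ψ n - ψ m)
      rwa [add_sub_cancel] at this
    have h8 : B * (((n : ℝ) - m) / m) ≤ |B| / m * n := by
      have h9 : (m : ℝ) ≤ n := by exact_mod_cast hnm
      calc B * (((n : ℝ) - m) / m) ≤ |B| * (((n : ℝ) - m) / m) :=
            mul_le_mul_of_nonneg_right (le_abs_self B) (div_nonneg (by linarith) hm0.le)
        _ = |B| / m * ((n : ℝ) - m) := by ring
        _ ≤ |B| / m * n := mul_le_mul_of_nonneg_left (by linarith) (by positivity)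
    linarith
  rw [dist_zero_right, Real.norm_eq_abs, abs_div, Nat.abs_cast, div_lt_iff₀ hn0]
  rw [div_lt_iff₀ hn0] at h4
  have h10 : |B| / m * n < ε / 2 * n := mul_lt_mul_of_pos_right h1 hn0
  linarith

theorem slow_log (β c : ℝ) : Slow (fun n => β * Real.log n + c) := by
  refine ⟨|β|, fun m n hm hmn => ?_⟩
  have hm0 : (0 : ℝ) < m := by exact_mod_cast (show 0 < m by omega)
  have hn0 : (0 : ℝ) < n := by exact_mod_cast (show 0 < n by omega)
  have hmn' : (m : ℝ) ≤ n := by exact_mod_cast hmn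
  have h1 : (β * Real.log (n : ℝ) + c) - (β * Real.log (m : ℝ) + c) =
      β * Real.log ((n : ℝ) / m) := by
    rw [Real.log_div hn0.ne' hm0.ne']
    ring
  rw [h1, abs_mul]
  refine mul_le_mul_of_nonneg_left ?_ (abs_nonneg _)
  have h2 : 0 ≤ Real.log ((n : ℝ) / m) := Real.log_nonneg ((one_le_div hm0).2 hmn')
  rw [abs_of_nonneg h2]
  refine (Real.log_le_sub_one_of_pos (div_pos hn0 hm0)).trans ?_
  rw [div_sub_one hm0.ne']

/-- along one parity class -/
theorem Cl.kes_of {N : ℕ} {D θ : ℝ} {x : ℕ → ℝ} (h : Cl 2 N D θ x) (hD : 0 ≤ D) (hθ0 : 0 < θ)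
    (hθ1 : θ < 1) (s : ℕ) : Kes (fun k => x (2 * k + s)) D θ (max N 1) := by
  intro k hk hbig
  have hk1 : 1 ≤ k := (le_max_right _ _).trans hk
  have hkN : N ≤ k := (le_max_left _ _).trans hk
  have hk0 : (0 : ℝ) < k := by exact_mod_cast hk1
  simp only at hbig ⊢
  rw [show 2 * (k + 1) + s = 2 * k + s + 2 by ring] at hbig ⊢
  rw [show 2 * (k + 2) + s = 2 * k + s + 2 * 2 by ring]
  refine (h.kes (2 * k + s) (by omega)
    ((pow_le_pow_of_le_one hθ0.le hθ1.le (by omega)).trans hbig)).trans ?_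
  refine mul_le_mul_of_nonneg_left ?_ (mul_nonneg (h.nn _) (h.nn _))
  have h1 : D / ((2 * k + s : ℕ) : ℝ) ≤ D / k := by
    refine div_le_div_of_nonneg_left hD hk0 ?_
    exact_mod_cast (show k ≤ 2 * k + s by omega)
  linarith

/-- control of all terms -/
theorem all_terms {N : ℕ} {D θ : ℝ} {x : ℕ → ℝ} (h : Cl 2 N D θ x) (hD : 0 ≤ D) (hθ0 : 0 < θ)
    (hθ1 : θ < 1) (s : ℕ) {E : ℕ → ℝ} (hE : Q294.Sp1.Err E) {ψ : ℕ → ℝ} (hψ : Slow ψ) {S : Set ℕ}
    {τ δ : ℝ} (hτ : 0 < τ) (hδ : 0 < δ) (hS : Gap S δ E)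
    (hyS : ∀ᶠ k : ℕ in atTop, k ∈ S → 0 < x (2 * k + s) ∧
      |Real.log (x (2 * k + s)) - ψ k| ≤ τ * E k) :
    ∀ᶠ k : ℕ in atTop, 0 < x (2 * k + s) ∧
      |Real.log (x (2 * k + s)) - ψ k| ≤ (9 * τ + 384 * D * δ ^ 2) * E k := by
  obtain ⟨B, hB⟩ := id hψ
  have hB' : ∀ m n : ℕ, 1 ≤ m → m ≤ n → |ψ n - ψ m| ≤ |B| * ((n : ℝ) - m) / m := by
    intro m n hm hmn
    refine (hB m n hm hmn).trans ?_
    have h1 : (0 : ℝ) ≤ (n : ℝ) - m := by
      have : (m : ℝ) ≤ n := by exact_mod_cast hmn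
      linarith
    rw [mul_div_assoc]
    exact mul_le_mul_of_nonneg_right (le_abs_self B) (div_nonneg h1 (Nat.cast_nonneg _))
  exact step (y := fun k => x (2 * k + s)) (h.kes_of hD hθ0 hθ1 s) (fun k => h.nn _) hD hθ0 hθ1
    (fun n _ => hE.one n) hE.mono hE.two hE.lim hτ hδ (abs_nonneg B) hB' hψ.zero hS hyS

/-- the asymptotic form -/
theorem all_form {N : ℕ} {D θ : ℝ} {x : ℕ → ℝ} (h : Cl 2 N D θ x) (hD : 0 ≤ D) (hθ0 : 0 < θ)
    (hθ1 : θ < 1) (s : ℕ) {ψ : ℕ → ℝ} (hψ : Slow ψ) {S : Set ℕ}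
    (hS : ∀ δ : ℝ, 0 < δ → Gap S δ (fun _ => 1))
    (hl : Tendsto (fun k : ℕ => x (2 * k + s) / Real.exp (ψ k)) (atTop ⊓ 𝓟 S) (𝓝 1)) :
    Tendsto (fun k : ℕ => x (2 * k + s) / Real.exp (ψ k)) atTop (𝓝 1) := by
  have hlf : ∀ k, 0 < x (2 * k + s) →
      Real.log (x (2 * k + s) / Real.exp (ψ k)) = Real.log (x (2 * k + s)) - ψ k := by
    intro k hk
    rw [Real.log_div hk.ne' (Real.exp_pos _).ne', Real.log_exp]
  have hposS : ∀ᶠ k : ℕ in atTop, k ∈ S → 0 < x (2 * k + s) := by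
    have h1 := hl.eventually_const_lt (show (0 : ℝ) < 1 by norm_num)
    rw [eventually_inf_principal] at h1
    filter_upwards [h1] with k hk hkS
    have h2 := hk hkS
    by_contra h3
    have h4 : x (2 * k + s) ≤ 0 := not_lt.1 h3
    have := div_nonpos_of_nonpos_of_nonneg h4 (Real.exp_pos (ψ k)).le
    linarith
  have hall : ∀ ε : ℝ, 0 < ε → ∀ᶠ k : ℕ in atTop, 0 < x (2 * k + s) ∧
      |Real.log (x (2 * k + s)) - ψ k| ≤ ε := by
    intro ε hε
    have hδ : 0 < √(ε / (4 * (384 * D + 1))) := Real.sqrt_pos.2 (by positivity)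
    have h3 := all_terms (τ := ε / 36) (δ := √(ε / (4 * (384 * D + 1)))) (S := S) (E := fun _ => 1)
      h hD hθ0 hθ1 s Q294.Sp1.err_one hψ (by positivity) hδ (hS _ hδ) (by
        have h4 := (hl.log one_ne_zero).abs
        rw [Real.log_one, abs_zero] at h4
        have h5 := h4.eventually_lt_const (show 0 < ε / 36 by positivity)
        rw [eventually_inf_principal] at h5
        filter_upwards [h5, hposS] with k hk hk2 hkS
        have h6 := hk hkS
        rw [hlf k (hk2 hkS)] at h6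
        exact ⟨hk2 hkS, by rw [mul_one]; exact h6.le⟩)
    filter_upwards [h3] with k hk
    refine ⟨hk.1, hk.2.trans ?_⟩
    rw [Real.sq_sqrt (by positivity), mul_one]
    have h7 : 384 * D * (ε / (4 * (384 * D + 1))) ≤ ε / 4 := by
      rw [mul_div_assoc', div_le_div_iff₀ (by positivity) (by norm_num)]
      nlinarith
    linarith
  have hlog : Tendsto (fun k : ℕ => Real.log (x (2 * k + s)) - ψ k) atTop (𝓝 0) := by
    rw [Metric.tendsto_atTop']
    intro ε hε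
    obtain ⟨M, hM⟩ := eventually_atTop.1 (hall (ε / 2) (by linarith))
    refine ⟨M, fun n hn => ?_⟩
    rw [dist_zero_right, Real.norm_eq_abs]
    exact lt_of_le_of_lt (hM n hn.le).2 (by linarith)
  have h8 := (Real.continuous_exp.tendsto 0).comp hlog
  rw [Real.exp_zero] at h8
  refine h8.congr' ?_
  filter_upwards [hall 1 one_pos] with k hk
  simp only [Function.comp]
  rw [← hlf k hk.1, Real.exp_log (div_pos hk.1 (Real.exp_pos _))]

/-- the exponent -/
theorem all_expo {N : ℕ} {D θ : ℝ} {x : ℕ → ℝ} (h : Cl 2 N D θ x) (hD : 0 ≤ D) (hθ0 : 0 < θ)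
    (hθ1 : θ < 1) (s : ℕ) {S : Set ℕ}
    (hS : ∀ δ : ℝ, 0 < δ → Gap S δ (fun n => Real.log n))
    (hpos : ∀ᶠ k : ℕ in atTop, k ∈ S → 0 < x (2 * k + s)) (β : ℝ)
    (hl : Tendsto (fun k : ℕ => Real.log (x (2 * k + s)) / Real.log k) (atTop ⊓ 𝓟 S) (𝓝 β)) :
    Tendsto (fun k : ℕ => Real.log (x (2 * k + s)) / Real.log k) atTop (𝓝 β) := by
  have tlog : Tendsto (fun n : ℕ => Real.log (n : ℝ)) atTop atTop :=
    Real.tendsto_log_atTop.comp tendsto_natCast_atTop_atTop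
  rw [Metric.tendsto_atTop']
  intro ε hε
  have hδ : 0 < √(ε / (16 * (384 * D + 1))) := Real.sqrt_pos.2 (by positivity)
  have h3 := all_terms (τ := ε / 72) (δ := √(ε / (16 * (384 * D + 1)))) (S := S)
    (E := fun n => 1 + Real.log n) h hD hθ0 hθ1 s Q294.Sp1.err_log (slow_log β 0) (by positivity)
    hδ (by
      filter_upwards [hS _ hδ, eventually_gt_atTop 1] with n hn h5
      obtain ⟨k, h1, h2, h4⟩ := hn
      refine ⟨k, h1, h2, h4.trans ?_⟩
      have h51 : (1 : ℝ) < n := by exact_mod_cast h5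
      have h7 : √(n * Real.log n) ≤ √(n * (1 + Real.log n)) := by
        refine Real.sqrt_le_sqrt (mul_le_mul_of_nonneg_left (by linarith) (by positivity))
      have h8 := mul_le_mul_of_nonneg_left h7 hδ.le
      linarith) (by
      have h4 := Metric.tendsto_nhds.1 hl (ε / 72) (by positivity)
      rw [eventually_inf_principal] at h4
      filter_upwards [h4, hpos, eventually_gt_atTop 1] with n h4 hp h5 hnS
      have h51 : (1 : ℝ) < n := by exact_mod_cast h5
      have h52 : 0 < Real.log (n : ℝ) := Real.log_pos h51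
      have h7 := h4 hnS
      rw [Real.dist_eq] at h7
      have h8 : Real.log (x (2 * n + s)) - (β * Real.log n + 0) =
          (Real.log (x (2 * n + s)) / Real.log n - β) * Real.log n := by
        field_simp
        ring
      refine ⟨hp hnS, ?_⟩
      rw [h8, abs_mul, abs_of_pos h52]
      have h10 := mul_le_mul_of_nonneg_right h7.le h52.le
      have h11 : 0 < ε / 72 := by positivity
      nlinarith)
  obtain ⟨M, hM⟩ := eventually_atTop.1 (h3.and (tlog.eventually_ge_atTop 1))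
  refine ⟨M + 1, fun n hn => ?_⟩
  obtain ⟨⟨-, h4⟩, h5⟩ := hM n (by omega)
  have hln : 0 < Real.log (n : ℝ) := by linarith
  rw [Real.dist_eq]
  have h6 : Real.log (x (2 * n + s)) / Real.log n - β =
      (Real.log (x (2 * n + s)) - (β * Real.log n + 0)) / Real.log n := by
    field_simp
    ring
  rw [h6, abs_div, abs_of_pos hln, div_lt_iff₀ hln]
  refine h4.trans_lt ?_
  rw [Real.sq_sqrt (by positivity)]
  have h7 : 384 * D * (ε / (16 * (384 * D + 1))) ≤ ε / 16 := by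
    rw [mul_div_assoc', div_le_div_iff₀ (by positivity) (by norm_num)]
    nlinarith
  have h8 : 1 + Real.log (n : ℝ) ≤ 2 * Real.log n := by linarith
  have h9 : (9 * (ε / 72) + 384 * D * (ε / (16 * (384 * D + 1)))) * (1 + Real.log n) ≤
      (3 * ε / 8) * (2 * Real.log n) :=
    mul_le_mul (by linarith) h8 (by linarith) (by positivity)
  refine h9.trans_lt ?_
  nlinarith

/-- the ratio of neighbouring terms and the quotient of two sequences -/
theorem all_ratio (N : ℕ) (D θ : ℝ) (hD : 0 ≤ D) (hθ0 : 0 < θ) (hθ1 : θ < 1) :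
    ∃ C : ℝ, 0 < C ∧ ∀ (s : ℕ) (x : ℕ → ℝ), Cl 2 N D θ x → ∀ E : ℕ → ℝ, Q294.Sp1.Err E →
      ∀ τ : ℝ, 0 < τ → (∀ᶠ k : ℕ in atTop, 0 < x (2 * k + s) ∧
        |Real.log (x (2 * k + s))| ≤ τ * E k) →
      ∀ᶠ k : ℕ in atTop,
        |x (2 * k + s + 2) / x (2 * k + s) - 1| ≤ C * √((1 + τ) * E k / k) ∧
        ∀ y : ℕ → ℝ, Cl 2 N D θ y → (∀ n, y n ≤ x n) →
          |y (2 * k + s + 2) / x (2 * k + s + 2) - y (2 * k + s) / x (2 * k + s)| ≤
            C * √((1 + τ) * E k / k) := by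
  obtain ⟨C, δ, N0, hC, hδ, hN0, hn⟩ := Loc.nested 2 (by norm_num) N D θ 8 hD hθ0 hθ1
    (by norm_num)
  refine ⟨C, hC, ?_⟩
  intro s x hx E hE τ hτ hlog
  obtain ⟨M, hM⟩ := eventually_atTop.1 hlog
  have hlim : Tendsto (fun k : ℕ => (1 + τ) * (E k / k)) atTop (𝓝 0) := by
    have := hE.lim.const_mul (1 + τ)
    rwa [mul_zero] at this
  filter_upwards [eventually_ge_atTop (4 * M + N0 + 4 * s + 4),
    hlim.eventually_le_const hδ] with k hk hk2
  have hk0 : (0 : ℝ) < k := by exact_mod_cast (show 0 < k by omega)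
  have hE1 := hE.one k
  obtain ⟨a, ha⟩ : ∃ a, a = (1 + τ) * E k := ⟨_, rfl⟩
  have ha1 : 1 ≤ a := by rw [ha]; nlinarith
  have hkn : (k : ℝ) ≤ ((2 * k + s : ℕ) : ℝ) := by exact_mod_cast (show k ≤ 2 * k + s by omega)
  have ha2 : a ≤ δ * ((2 * k + s : ℕ) : ℝ) := by
    have h1 : a ≤ δ * k := by
      rw [ha]
      rw [← mul_div_assoc, div_le_iff₀ hk0] at hk2
      exact hk2
    exact h1.trans (mul_le_mul_of_nonneg_left hkn hδ.le)
  -- the upper bound near the place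
  have hE4 : E (4 * k) ≤ 4 * E k := by
    have h1 := hE.two (2 * k) (by omega)
    have h2 := hE.two k (by omega)
    rw [show 2 * (2 * k) = 4 * k by ring] at h1
    linarith
  have hup : ∀ m, 2 * k + s ≤ 2 * m → m ≤ 2 * (2 * k + s) → m % 2 = (2 * k + s) % 2 →
      x m ≤ Real.exp (8 * a) := by
    intro m h1 h2 h3
    obtain ⟨j, rfl⟩ : ∃ j, m = 2 * j + s := ⟨(m - s) / 2, by omega⟩
    obtain ⟨h4, h5⟩ := hM j (by omega)
    have h6 : E j ≤ 4 * E k := (hE.mono (show j ≤ 4 * k by omega)).trans hE4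
    rw [← Real.log_le_iff_le_exp h4]
    have h7 := (abs_le.1 h5).2
    have h8 : τ * E j ≤ τ * (4 * E k) := mul_le_mul_of_nonneg_left h6 hτ.le
    rw [ha]
    nlinarith [mul_pos hτ (show 0 < E k by linarith)]
  obtain ⟨h4, h5⟩ := hM k (by omega)
  have hlow : Real.exp (-a) ≤ x (2 * k + s) := by
    rw [← Real.le_log_iff_exp_le h4]
    have h7 := (abs_le.1 h5).1
    rw [ha]
    nlinarith
  have hsq : √(a / ((2 * k + s : ℕ) : ℝ)) ≤ √((1 + τ) * E k / k) := by
    refine Real.sqrt_le_sqrt ?_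
    rw [← ha]
    exact div_le_div_of_nonneg_left (by linarith) hk0 hkn
  have hf := mul_le_mul_of_nonneg_left hsq hC.le
  constructor
  · have h := (hn x x hx hx (fun _ => le_rfl) (2 * k + s) (by omega) a ha1 ha2 hup hlow).1
    exact h.trans hf
  · intro y hy hyx
    have h := (hn x y hx hy hyx (2 * k + s) (by omega) a ha1 ha2 hup hlow).2
    exact h.trans hf

end Q78.Z3
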