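import Pool.Agent.Q78.Z3.Mix

set_option autoImplicit false

/-! Self-avoiding walks on `ℤ³` in a random domain: ratios of the mean numbers. -/

namespace Q78.Z3

open Finset Filter Topology MeasureTheory TH966.KO BR
open KN hiding SAP Inv K a bad mem_K S_ins_proof S_rem_proof S_change_proof

noncomputable section

/-- the probability that a uniform walk stays in the random domain -/
def PP {Ω : Type} [MeasurableSpace Ω] (ν : Measure Ω) (R : Ω → V3 → V3 → Prop) (n : ℕ) : ℝ :=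
  FF ν R n / (c n : ℝ)

/-- the error term -/
def err (ε p : ℝ) (n : ℕ) : ℝ := √((Real.log (1 / p) + (n : ℝ) ^ (1 / 3 + ε)) / n)

theorem PP_le {Ω : Type} [MeasurableSpace Ω] (ν : Measure Ω) [IsProbabilityMeasure ν]
    {R : Ω → V3 → V3 → Prop} (hR : ∀ e x, MeasurableSet {ω | R ω e x}) (n : ℕ) :
    PP ν R n ≤ 1 := by
  unfold PP
  rw [div_le_one (c_pos n)]
  exact FF_le ν hR n

theorem PP_nonneg {Ω : Type} [MeasurableSpace Ω] (ν : Measure Ω)
    (R : Ω → V3 → V3 → Prop) (n : ℕ) : 0 ≤ PP ν R n :=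
  div_nonneg (FF_nonneg ν R n) (c_pos n).le

theorem rpow_div_tendsto {α : ℝ} (h1 : α < 1) :
    Tendsto (fun n : ℕ => (n : ℝ) ^ α / n) atTop (𝓝 0) := by
  have h := (tendsto_rpow_neg_atTop (show 0 < 1 - α by linarith)).comp tendsto_natCast_atTop_atTop
  refine h.congr' ?_
  filter_upwards [eventually_ge_atTop 1] with n hn
  have hn0 : (0 : ℝ) < n := by exact_mod_cast hn
  simp only [Function.comp]
  rw [neg_sub, Real.rpow_sub hn0, Real.rpow_one]

theorem FF_true {Ω : Type} [MeasurableSpace Ω] (ν : Measure Ω) [IsProbabilityMeasure ν] (n : ℕ) :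
    FF ν (fun _ _ _ => True) n = c n := by
  unfold FF
  simp only [integral_const, probReal_univ, one_smul]
  have e : KR (fun _ _ => True) n = SS n := by
    ext w
    rw [mem_KR, mem_SS]
    simp
  rw [e, card_SS]

/-- **ratios in a random domain**; the bound `a` may be enlarged -/
theorem ratios (ε : ℝ) (hε : 0 < ε) (hε1 : ε < 2 / 3) : ∃ (C δ : ℝ) (N : ℕ), 0 < C ∧ 0 < δ ∧ 3 ≤ N ∧
    ∀ (Ω : Type) [MeasurableSpace Ω] (ν : Measure Ω) [IsProbabilityMeasure ν]
      (R : Ω → V3 → V3 → Prop), (∀ e x, MeasurableSet {ω | R ω e x}) →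
      ∀ n, N ≤ n → Real.exp (-δ * n) ≤ PP ν R n → ∀ b : ℝ, 0 ≤ b → b ≤ δ * n →
        Real.log (1 / PP ν R n) ≤ b →
        |FF ν R (n + 2) / (μ ^ 2 * FF ν R n) - 1| ≤ C * √((b + (n : ℝ) ^ (1 / 3 + ε)) / n) ∧
        ∀ R' : Ω → V3 → V3 → Prop, (∀ e x, MeasurableSet {ω | R' ω e x}) →
          (∀ ω e x, R' ω e x → R ω e x) →
          |FF ν R' (n + 2) / FF ν R (n + 2) - FF ν R' n / FF ν R n| ≤
            C * √((b + (n : ℝ) ^ (1 / 3 + ε)) / n) := by
  obtain ⟨D, θ, N, hD, hθ0, hθ1, hcx⟩ := mixture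
  obtain ⟨α, hα⟩ : ∃ α : ℝ, α = 1 / 3 + ε := ⟨_, rfl⟩
  have hα1 : 1 / 3 < α := by linarith
  have hα2 : α < 1 := by linarith
  have hα0 : 0 < α := by linarith
  obtain ⟨K1, hK1, hthird⟩ := third α hα1
  obtain ⟨C, δ, N0, hC, hδ, hN0, -, hnest⟩ : ∃ (C δ : ℝ) (N0 : ℕ), 0 < C ∧ 0 < δ ∧ 3 ≤ N0 ∧ True ∧
      ∀ x y : ℕ → ℝ, Cl 2 N D θ x → Cl 2 N D θ y → (∀ n, y n ≤ x n) → ∀ n, N0 ≤ n →
      ∀ a : ℝ, 1 ≤ a → a ≤ δ * n → (∀ m, 2 ≤ m → m ≤ 2 * n → x m ≤ Real.exp (2 * K1 * a)) →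
      Real.exp (-a) ≤ x n →
      |x (n + 2) / x n - 1| ≤ C * √(a / n) ∧
      |y (n + 2) / x (n + 2) - y n / x n| ≤ C * √(a / n) := by
    obtain ⟨C, δ, N0, h1, h2, h3, h4⟩ := nested 2 (by norm_num) N D θ (2 * K1) hD hθ0 hθ1
      (by positivity)
    exact ⟨C, δ, N0, h1, h2, h3, trivial, h4⟩
  have hμ : 0 < μ := by linarith [mu_one]
  obtain ⟨N1, hN1⟩ := eventually_atTop.1
    ((rpow_div_tendsto hα2).eventually_le_const (show (0 : ℝ) < δ / 2 by linarith))
  refine ⟨C, δ / 2, max (max N N0) N1, hC, by linarith,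
    hN0.trans ((le_max_right _ _).trans (le_max_left _ _)), ?_⟩
  intro Ω _ ν _ R hR n hn hp b hb0 hb hlog
  have hnN : N ≤ n := ((le_max_left _ _).trans (le_max_left _ _)).trans hn
  have hnN0 : N0 ≤ n := ((le_max_right _ _).trans (le_max_left _ _)).trans hn
  have hnN1 : N1 ≤ n := (le_max_right _ _).trans hn
  rw [← hα]
  have hpp : 0 < PP ν R n := lt_of_lt_of_le (Real.exp_pos _) hp
  have hnR : (3 : ℝ) ≤ n := by
    have : 3 ≤ n := by omega
    exact_mod_cast this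
  have hn0 : (0 : ℝ) < n := by linarith
  have hnα : 1 ≤ (n : ℝ) ^ α := Real.one_le_rpow (by linarith) hα0.le
  have hl2 : (n : ℝ) ^ α ≤ δ / 2 * n := by
    have := hN1 n hnN1
    rwa [div_le_iff₀ hn0] at this
  have hX : PP ν R n ≤ FF ν R n / μ ^ n := by
    unfold PP
    exact div_le_div_of_nonneg_left (FF_nonneg ν R n) (by positivity) (mu_pow n)
  obtain ⟨a, ha⟩ : ∃ a, a = b + (n : ℝ) ^ α := ⟨_, rfl⟩
  rw [← ha]
  have hsmall : Real.exp (-a) ≤ FF ν R n / μ ^ n := by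
    refine le_trans ?_ hX
    have e : PP ν R n = Real.exp (-Real.log (1 / PP ν R n)) := by
      rw [one_div, Real.log_inv, neg_neg, Real.exp_log hpp]
    rw [e]
    exact Real.exp_le_exp.2 (by linarith)
  have hup : ∀ m, 2 ≤ m → m ≤ 2 * n → FF ν R m / μ ^ m ≤ Real.exp (2 * K1 * a) := by
    intro m _ hm
    rw [div_le_iff₀ (by positivity), mul_comm]
    refine (FF_le ν hR m).trans ((hthird m).trans ?_)
    refine mul_le_mul_of_nonneg_left (Real.exp_le_exp.2 ?_) (by positivity)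
    have h1 : (m : ℝ) ^ α ≤ 2 * (n : ℝ) ^ α := by
      calc (m : ℝ) ^ α ≤ (2 * n : ℝ) ^ α :=
            Real.rpow_le_rpow (Nat.cast_nonneg _) (by exact_mod_cast hm) hα0.le
        _ = 2 ^ α * (n : ℝ) ^ α := Real.mul_rpow (by norm_num) hn0.le
        _ ≤ 2 * (n : ℝ) ^ α := by
            refine mul_le_mul_of_nonneg_right ?_ (by positivity)
            calc (2 : ℝ) ^ α ≤ 2 ^ (1 : ℝ) :=
                  Real.rpow_le_rpow_of_exponent_le (by norm_num) hα2.le
              _ = 2 := Real.rpow_one 2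
    have h2 : (n : ℝ) ^ α ≤ a := by linarith
    calc K1 * (m : ℝ) ^ α ≤ K1 * (2 * a) :=
          mul_le_mul_of_nonneg_left (h1.trans (by linarith)) hK1
      _ = 2 * K1 * a := by ring
  have hFs : ∀ R' : Ω → V3 → V3 → Prop,
      FF ν R' (n + 2) / μ ^ (n + 2) / (FF ν R (n + 2) / μ ^ (n + 2)) =
      FF ν R' (n + 2) / FF ν R (n + 2) := fun R' => by
    rw [div_div_div_cancel_right₀ (by positivity)]
  have hFn : ∀ R' : Ω → V3 → V3 → Prop,
      FF ν R' n / μ ^ n / (FF ν R n / μ ^ n) =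
      FF ν R' n / FF ν R n := fun R' => by
    rw [div_div_div_cancel_right₀ (by positivity)]
  have hbδ : a ≤ δ * n := by linarith
  refine ⟨?_, fun R' hR' hsub => ?_⟩
  · have h := (hnest _ _ (Kz.cl (hcx Ω ν R hR) hμ) (Kz.cl (hcx Ω ν R hR) hμ) (fun _ => le_rfl) n
      hnN0 a (by linarith) hbδ hup hsmall).1
    have e : FF ν R (n + 2) / (μ ^ 2 * FF ν R n) =
        FF ν R (n + 2) / μ ^ (n + 2) / (FF ν R n / μ ^ n) := by
      rw [pow_add]
      field_simp
    rw [e]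
    exact h
  · have h := (hnest _ _ (Kz.cl (hcx Ω ν R hR) hμ) (Kz.cl (hcx Ω ν R' hR') hμ)
      (fun k => div_le_div_of_nonneg_right (FF_mono ν hR hR' hsub k) (by positivity)) n hnN0
      a (by linarith) hbδ hup hsmall).2
    rw [hFs, hFn] at h
    exact h

/-- **the ratio theorem in a random domain on `ℤ³`** -/
theorem main3 (ε : ℝ) (hε : 0 < ε) (hε1 : ε < 2 / 3) : ∃ (C δ : ℝ) (N : ℕ), 0 < C ∧ 0 < δ ∧ 2 ≤ N ∧
    ∀ (Ω : Type) [MeasurableSpace Ω] (ν : Measure Ω) [IsProbabilityMeasure ν]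
      (R : Ω → V3 → V3 → Prop), (∀ e x, MeasurableSet {ω | R ω e x}) →
      (∀ n, N ≤ n → Real.exp (-δ * n) ≤ PP ν R (n + 2) →
        FF ν R (n + 2) ^ 2 ≤ FF ν R n * FF ν R (n + 4) * (1 + C / n)) ∧
      (∀ n, N ≤ n → Real.exp (-δ * n) ≤ PP ν R n →
        |FF ν R (n + 2) / (μ ^ 2 * FF ν R n) - 1| ≤ C * err ε (PP ν R n) n ∧
        ∀ R' : Ω → V3 → V3 → Prop, (∀ e x, MeasurableSet {ω | R' ω e x}) →
          (∀ ω e x, R' ω e x → R ω e x) →
          |FF ν R' (n + 2) / FF ν R (n + 2) - FF ν R' n / FF ν R n| ≤ C * err ε (PP ν R n) n) ∧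
      (∀ n m : ℕ, 1 ≤ n → n ≤ m → 2 ∣ m - n →
        |PP ν R m - PP ν R n| ≤ C * ((m - n : ℝ) * (n : ℝ) ^ (-(1 / 3 - ε / 2)))) := by
  obtain ⟨D, θ, N, hD, hθ0, hθ1, hcx⟩ := mixture
  obtain ⟨C, δ, N0, hC, hδ, hN0, hrat⟩ := ratios ε hε hε1
  have hμ : 0 < μ := by linarith [mu_one]
  have hlθ : 0 < Real.log (1 / θ) := Real.log_pos (by rw [lt_div_iff₀ hθ0]; linarith)
  obtain ⟨δ', hδ'⟩ : ∃ δ', δ' = min δ (Real.log (1 / θ)) := ⟨_, rfl⟩
  have hδ'0 : 0 < δ' := by rw [hδ']; exact lt_min hδ hlθ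
  have hδ'1 : δ' ≤ δ := by rw [hδ']; exact min_le_left _ _
  obtain ⟨N2, hN2⟩ : ∃ N2, N2 = max N N0 := ⟨_, rfl⟩
  have hNN : N ≤ N2 := by rw [hN2]; exact le_max_left _ _
  have hN0N : N0 ≤ N2 := by rw [hN2]; exact le_max_right _ _
  have happ : ∀ (Ω : Type) [MeasurableSpace Ω] (ν : Measure Ω) [IsProbabilityMeasure ν]
      (R : Ω → V3 → V3 → Prop), (∀ e x, MeasurableSet {ω | R ω e x}) →
      ∀ n, N2 ≤ n → Real.exp (-δ' * n) ≤ PP ν R n →
        |FF ν R (n + 2) / (μ ^ 2 * FF ν R n) - 1| ≤ C * err ε (PP ν R n) n ∧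
        ∀ R' : Ω → V3 → V3 → Prop, (∀ e x, MeasurableSet {ω | R' ω e x}) →
          (∀ ω e x, R' ω e x → R ω e x) →
          |FF ν R' (n + 2) / FF ν R (n + 2) - FF ν R' n / FF ν R n| ≤ C * err ε (PP ν R n) n := by
    intro Ω _ ν _ R hR n hn hp
    have hpp : 0 < PP ν R n := lt_of_lt_of_le (Real.exp_pos _) hp
    have hn0 : (0 : ℝ) < n := by
      have : 0 < n := by omega
      exact_mod_cast this
    have hlog1 : Real.log (1 / PP ν R n) ≤ δ' * n := by
      rw [one_div, Real.log_inv]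
      have := Real.log_le_log (Real.exp_pos _) hp
      rw [Real.log_exp] at this
      linarith
    have hlog0 : 0 ≤ Real.log (1 / PP ν R n) := Real.log_nonneg (by
      rw [le_div_iff₀ hpp]
      linarith [PP_le ν hR n])
    have hmul : δ' * n ≤ δ * n := mul_le_mul_of_nonneg_right hδ'1 hn0.le
    exact hrat Ω ν R hR n (by omega) ((Real.exp_le_exp.2 (by nlinarith)).trans hp) _ hlog0
      (hlog1.trans hmul) le_rfl
  obtain ⟨β, hβ⟩ : ∃ β : ℝ, β = 1 / 3 - ε / 2 := ⟨_, rfl⟩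
  have hβ0 : 0 < β := by linarith
  obtain ⟨C4, hC4⟩ : ∃ C4, C4 = max C ((N2 : ℝ) ^ β) := ⟨_, rfl⟩
  have hC40 : 0 < C4 := by rw [hC4]; exact lt_of_lt_of_le hC (le_max_left _ _)
  refine ⟨max (max C D) C4, δ', N2, lt_of_lt_of_le (lt_of_lt_of_le hC (le_max_left _ _))
    (le_max_left _ _), hδ'0, by omega, ?_⟩
  intro Ω _ ν _ R hR
  refine ⟨fun n hn hp => ?_, fun n hn hp => ?_, fun n m hn hnm hd => ?_⟩
  · have hn0 : (0 : ℝ) < n := by
      have : 0 < n := by omega
      exact_mod_cast this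
    have hX : PP ν R (n + 2) ≤ FF ν R (n + 2) / μ ^ (n + 2) := by
      unfold PP
      exact div_le_div_of_nonneg_left (FF_nonneg ν R _) (by positivity) (mu_pow _)
    have hθ : θ ^ (n + 2) ≤ Real.exp (-δ' * n) := by
      have e : θ ^ (n + 2) = Real.exp (-(((n + 2 : ℕ) : ℝ) * Real.log (1 / θ))) := by
        rw [one_div, Real.log_inv, mul_neg, neg_neg, Real.exp_nat_mul, Real.exp_log hθ0]
      rw [e]
      refine Real.exp_le_exp.2 ?_
      have h1 : δ' ≤ Real.log (1 / θ) := by rw [hδ']; exact min_le_right _ _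
      push_cast
      nlinarith
    have h := (Kz.cl (hcx Ω ν R hR) hμ).kes n (by omega) (hθ.trans (hp.trans hX))
    have e3 : (μ ^ (n + 2)) ^ 2 = μ ^ n * μ ^ (n + 2 * 2) := by
      rw [← pow_mul, ← pow_add]
      congr 1
      ring
    rw [div_pow, div_mul_div_comm, div_mul_eq_mul_div, e3] at h
    rw [div_le_div_iff_of_pos_right (by positivity)] at h
    refine h.trans (mul_le_mul_of_nonneg_left ?_
      (mul_nonneg (FF_nonneg ν R n) (FF_nonneg ν R _)))
    have : D / n ≤ max (max C D) C4 / n := div_le_div_of_nonneg_right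
      ((le_max_right _ _).trans (le_max_left _ _)) hn0.le
    linarith
  · obtain ⟨h1, h2⟩ := happ Ω ν R hR n hn hp
    have hle : C ≤ max (max C D) C4 := (le_max_left _ _).trans (le_max_left _ _)
    have hm := mul_le_mul_of_nonneg_right hle
      (show 0 ≤ err ε (PP ν R n) n from Real.sqrt_nonneg _)
    exact ⟨h1.trans hm, fun R' hR' hsub => (h2 R' hR' hsub).trans hm⟩
  · rw [← hβ]
    have hstep : ∀ n, 1 ≤ n → |PP ν R (n + 2) - PP ν R n| ≤ C4 * (n : ℝ) ^ (-β) := by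
      intro n hn
      have hnR : (1 : ℝ) ≤ n := by exact_mod_cast hn
      have hn0 : (0 : ℝ) < n := by linarith
      by_cases hnN : N2 ≤ n
      · have hPT : PP ν (fun _ _ _ => True) n = 1 := by
          unfold PP
          rw [FF_true, div_self (c_pos n).ne']
        have h := (happ Ω ν (fun _ _ _ => True) (fun _ _ => MeasurableSet.const _) n hnN (by
          rw [hPT]
          refine Real.exp_le_one_iff.2 ?_
          nlinarith)).2 R hR (fun _ _ _ _ => trivial)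
        rw [FF_true, FF_true] at h
        have e : err ε (PP ν (fun _ _ _ => True) n) n = (n : ℝ) ^ (-β) := by
          unfold err
          rw [hPT, div_one, Real.log_one, zero_add]
          have e1 : (n : ℝ) ^ (1 / 3 + ε) / n = ((n : ℝ) ^ (-β)) ^ 2 := by
            have e2 : (n : ℝ) ^ (1 / 3 + ε) / n = (n : ℝ) ^ (1 / 3 + ε - 1) := by
              rw [Real.rpow_sub hn0, Real.rpow_one]
            rw [e2, ← Real.rpow_natCast, ← Real.rpow_mul hn0.le]
            congr 1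
            rw [hβ]
            push_cast
            ring
          rw [e1, Real.sqrt_sq (by positivity)]
        rw [e] at h
        exact h.trans (mul_le_mul_of_nonneg_right (by rw [hC4]; exact le_max_left _ _)
          (by positivity))
      · push Not at hnN
        have h1 : |PP ν R (n + 2) - PP ν R n| ≤ 1 := by
          rw [abs_le]
          constructor <;> linarith [PP_nonneg ν R (n + 2), PP_le ν hR (n + 2), PP_nonneg ν R n,
            PP_le ν hR n]
        refine h1.trans ?_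
        have h2 : (n : ℝ) ^ β ≤ C4 := by
          rw [hC4]
          exact (Real.rpow_le_rpow hn0.le (by exact_mod_cast hnN.le) hβ0.le).trans (le_max_right _ _)
        rw [Real.rpow_neg hn0.le, ← div_eq_mul_inv, one_le_div (by positivity)]
        exact h2
    have hn0 : (0 : ℝ) < n := by exact_mod_cast hn
    have hsum : ∀ j : ℕ, |PP ν R (n + 2 * j) - PP ν R n| ≤ j * (C4 * (n : ℝ) ^ (-β)) := by
      intro j
      induction j with
      | zero => simp
      | succ j ih =>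
        have e : PP ν R (n + 2 * (j + 1)) - PP ν R n =
          (PP ν R (n + 2 * j + 2) - PP ν R (n + 2 * j)) + (PP ν R (n + 2 * j) - PP ν R n) := by
          rw [show n + 2 * (j + 1) = n + 2 * j + 2 by ring]
          ring
        rw [e]
        refine (abs_add_le _ _).trans ?_
        have h1 := hstep (n + 2 * j) (by omega)
        have h2 : (((n + 2 * j : ℕ) : ℝ)) ^ (-β) ≤ (n : ℝ) ^ (-β) :=
          Real.rpow_le_rpow_of_nonpos hn0 (by push_cast; linarith [(Nat.cast_nonneg j : (0:ℝ) ≤ j)])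
            (by linarith)
        have h3 := mul_le_mul_of_nonneg_left h2 hC40.le
        push_cast at h1 h3 ⊢
        linarith
    obtain ⟨k, hk⟩ := hd
    have hm' : m = n + 2 * k := by omega
    have h1 := hsum k
    rw [← hm'] at h1
    refine h1.trans ?_
    have hk1 : (k : ℝ) ≤ (m : ℝ) - n := by
      rw [hm']
      push_cast
      have hk0 : (0 : ℝ) ≤ k := Nat.cast_nonneg _
      linarith
    have hk0 : (0 : ℝ) ≤ (m : ℝ) - n := le_trans (Nat.cast_nonneg _) hk1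
    have h3 : C4 ≤ max (max C D) C4 := le_max_right _ _
    have hβp : 0 ≤ (n : ℝ) ^ (-β) := by positivity
    calc (k : ℝ) * (C4 * (n : ℝ) ^ (-β)) ≤ ((m : ℝ) - n) * (C4 * (n : ℝ) ^ (-β)) :=
          mul_le_mul_of_nonneg_right hk1 (by positivity)
      _ = C4 * (((m : ℝ) - n) * (n : ℝ) ^ (-β)) := by ring
      _ ≤ _ := mul_le_mul_of_nonneg_right h3 (mul_nonneg hk0 hβp)

end

end Q78.Z3
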