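import Pool.Agent.Q78.Z3.Fin
import Pool.Agent.Q78.UG.AbsQ

set_option autoImplicit false

/-! Self-avoiding walks of random length on `ℤ³` in a random domain: the law of the length. -/

namespace Q78.Z3

open Finset Filter Topology MeasureTheory TH966.KO BR
open KN hiding SAP Inv K a bad mem_K S_ins_proof S_rem_proof S_change_proof

noncomputable section

/-- probability that the walk has `n` steps and lies in the random domain -/
def Pq {Ω : Type} [MeasurableSpace Ω] (ν : Measure Ω) (q : ℕ → ℝ) (T : ℝ)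
    (R : Ω → V3 → V3 → Prop) (n : ℕ) : ℝ := FF ν R n * q n / T

/-- **the length of a random walk in a random domain** -/
theorem lengthLaw (c : ℝ) (hc : 0 ≤ c) : ∃ C κ δ : ℝ, 0 < C ∧ 1 < κ ∧ 0 < δ ∧
    ∀ (Ω : Type) [MeasurableSpace Ω] (ν : Measure Ω) [IsProbabilityMeasure ν]
      (R : Ω → V3 → V3 → Prop), (∀ e x, MeasurableSet {ω | R ω e x}) →
      ∀ q : ℕ → ℝ, (∀ n, 0 ≤ q n) → (∀ n, q n ≤ (κ / μ) ^ n) →
      (∀ n, 1 ≤ n → q (n + 2) ^ 2 ≤ q n * q (n + 4) * (1 + c / n)) →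
      ∀ T : ℝ, 0 < T → HasSum (fun n => FF ν R n * q n) T →
      ∀ m : ℕ, C * (1 + max 0 (Real.log (1 / T))) ≤ m →
        Pq ν q T R m ≤ C / √(m : ℝ) ∧
        (∀ (R' : ℕ → Ω → V3 → V3 → Prop),
          (∀ i e x, MeasurableSet {ω | R' i ω e x}) → (∀ i ω e x, R' i ω e x → R ω e x) →
          ∀ k, ∑ i ∈ range k, |Pq ν q T (R' i) (m + i + 2) - Pq ν q T (R' i) (m + i)| ≤
            C / √(m : ℝ)) ∧
        (Real.exp (-δ * m) ≤ Pq ν q T R m →
          |Pq ν q T R (m + 2) / Pq ν q T R m - 1| ≤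
            C * √((1 + Real.log (1 / Pq ν q T R m)) / m) ∧
          ∀ (R' : Ω → V3 → V3 → Prop),
            (∀ e x, MeasurableSet {ω | R' ω e x}) → (∀ ω e x, R' ω e x → R ω e x) →
            |FF ν R' (m + 2) / FF ν R (m + 2) - FF ν R' m / FF ν R m| ≤
              C * √((1 + Real.log (1 / Pq ν q T R m)) / m)) := by
  obtain ⟨C0, θ, N, hC0, hθ0, hθ1, h⟩ := mixture
  obtain ⟨C, κ, δ, hC, hκ, hδ, hmain⟩ := Q78.UG.fugQ 2 N (by norm_num) C0 c θ hC0 hc hθ0 hθ1
  refine ⟨C, κ, δ, hC, hκ, hδ, ?_⟩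
  intro Ω _ ν _ R hR q hq0 hq1 hq2 T hT hsum m hm
  have hμ : 0 < μ := by linarith [mu_one]
  obtain ⟨a1, a2, a3⟩ := hmain μ hμ (FF ν R) (h Ω ν R hR) q ⟨hq0, hq1, hq2⟩ T hT
    (fun M => hsum.summable.sum_le_tsum _ (fun n _ => mul_nonneg (FF_nonneg ν R n) (hq0 n))
      |>.trans (le_of_eq hsum.tsum_eq)) m hm
  refine ⟨a1, ?_, ?_⟩
  · intro R' hR' hsub k
    exact a2 (fun i => FF ν (R' i)) (fun i => h Ω ν (R' i) (hR' i))
      (fun i n => FF_mono ν hR (hR' i) (hsub i) n) k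
  · intro hexp
    obtain ⟨b1, b2⟩ := a3 hexp
    refine ⟨?_, ?_⟩
    · have e : Pq ν q T R (m + 2) / Pq ν q T R m =
          FF ν R (m + 2) * q (m + 2) / (FF ν R m * q m) := by
        unfold Pq
        rw [div_div_div_cancel_right₀ hT.ne']
      rw [e]
      exact b1
    · intro R' hR' hsub
      exact b2 (FF ν R') (h Ω ν R' hR') (fun n => FF_mono ν hR hR' hsub n)

/-! ### walks between two points of a fixed domain -/

/-- the number of `n`-step self-avoiding walks from `a` to `b` with all vertices in `D` -/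
def NN (D : Set V3) (a b : V3) (n : ℕ) : ℕ :=
  Nat.card {w : Fin (n + 1) → Fin 3 → ℤ // w 0 = a ∧ w (Fin.last n) = b ∧
    (∀ i : Fin n, ∑ j, |w i.succ j - w i.castSucc j| = 1) ∧ Function.Injective w ∧ ∀ i, w i ∈ D}

/-- the relation to the end point -/
def Rab (D : Set V3) (a b : V3) : V3 → V3 → Prop := fun e x => e = b - a ∧ x + a ∈ D

theorem NN_eq (D : Set V3) (a b : V3) (n : ℕ) : NN D a b n = (KR (Rab D a b) n).card := by
  rw [card_KR_fun]
  unfold NN
  refine Nat.card_congr (Equiv.subtypeEquiv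
    ((Equiv.subRight a).arrowCongr (Equiv.refl (Fin (n + 1))) |> fun _ =>
      (Equiv.arrowCongr (Equiv.refl (Fin (n + 1))) (Equiv.subRight a))) ?_)
  intro w
  have hw : ∀ i, (Equiv.arrowCongr (Equiv.refl (Fin (n + 1))) (Equiv.subRight a)) w i =
      w i - a := fun i => rfl
  simp only [IsSAW, hw, Rab]
  constructor
  · rintro ⟨h1, h2, h3, h4, h5⟩
    refine ⟨⟨by rw [h1, sub_self], fun i => ?_, fun i j hij => h4 (sub_left_injective hij)⟩,
      fun i => ⟨by rw [h2], by rw [sub_add_cancel]; exact h5 i⟩⟩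
    rw [← h3 i]
    refine Finset.sum_congr rfl fun j _ => ?_
    congr 1
    simp only [Pi.sub_apply]
    ring
  · rintro ⟨⟨h1, h3, h4⟩, h5⟩
    refine ⟨sub_eq_zero.1 h1, ?_, fun i => ?_, fun i j hij => h4 ?_, fun i => ?_⟩
    · have := (h5 0).1
      exact sub_left_injective this
    · rw [← h3 i]
      refine Finset.sum_congr rfl fun j _ => ?_
      congr 1
      simp only [Pi.sub_apply]
      ring
    · show w i - a = w j - a
      rw [hij]
    · have := (h5 i).2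
      rwa [sub_add_cancel] at this

theorem FF_dirac (R : V3 → V3 → Prop) (n : ℕ) :
    FF (Measure.dirac ()) (fun _ : Unit => R) n = ((KR R n).card : ℝ) := by
  unfold FF
  rw [integral_dirac]

theorem NN_FF (D : Set V3) (a b : V3) (n : ℕ) :
    (NN D a b n : ℝ) = FF (Measure.dirac ()) (fun _ : Unit => Rab D a b) n := by
  rw [FF_dirac, NN_eq]

/-- **the length of a random walk between two points of a domain** -/
theorem twoPoint : ∃ C κ δ : ℝ, 0 < C ∧ 1 < κ ∧ 0 < δ ∧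
    ∀ (D : Set V3) (a b : V3) (x G : ℝ), 0 < x → x ≤ κ / μ → 0 < G →
      HasSum (fun n => (NN D a b n : ℝ) * x ^ n) G →
      ∀ m : ℕ, C * (1 + max 0 (Real.log (1 / G))) ≤ m →
        (NN D a b m : ℝ) * x ^ m / G ≤ C / √(m : ℝ) ∧
        (∀ D' : ℕ → Set V3, (∀ i, D' i ⊆ D) → ∀ k, ∑ i ∈ range k,
          |(NN (D' i) a b (m + i + 2) : ℝ) * x ^ (m + i + 2) / G -
            (NN (D' i) a b (m + i) : ℝ) * x ^ (m + i) / G| ≤ C / √(m : ℝ)) ∧
        (Real.exp (-δ * m) ≤ (NN D a b m : ℝ) * x ^ m / G →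
          |(NN D a b (m + 2) : ℝ) * x ^ (m + 2) / (NN D a b m * x ^ m) - 1| ≤
            C * √((1 + Real.log (1 / ((NN D a b m : ℝ) * x ^ m / G))) / m) ∧
          ∀ D' ⊆ D, |(NN D' a b (m + 2) : ℝ) / NN D a b (m + 2) - (NN D' a b m : ℝ) / NN D a b m| ≤
              C * √((1 + Real.log (1 / ((NN D a b m : ℝ) * x ^ m / G))) / m)) := by
  obtain ⟨C, κ, δ, hC, hκ, hδ, h⟩ := lengthLaw 0 le_rfl
  refine ⟨C, κ, δ, hC, hκ, hδ, ?_⟩
  intro D a b x G hx hxκ hG hsum m hm
  simp only [NN_FF] at hsum ⊢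
  have hms : ∀ (D : Set V3) (e y : V3), MeasurableSet {ω : Unit | Rab D a b e y} :=
    fun D e y => MeasurableSet.of_discrete
  have hsub : ∀ D' : Set V3, D' ⊆ D → ∀ (ω : Unit) (e y : V3), Rab D' a b e y → Rab D a b e y :=
    fun D' hD ω e y h => ⟨h.1, hD h.2⟩
  obtain ⟨a1, a2, a3⟩ := h Unit (Measure.dirac ()) (fun _ => Rab D a b) (hms D) (fun n => x ^ n)
    (fun n => by positivity) (fun n => pow_le_pow_left₀ hx.le hxκ n)
    (fun n hn => by
      rw [zero_div, add_zero, mul_one, ← pow_mul, ← pow_add]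
      refine le_of_eq ?_
      congr 1
      ring) G hG hsum m hm
  refine ⟨a1, fun D' hD' k => ?_, fun hexp => ?_⟩
  · exact a2 (fun i _ => Rab (D' i) a b) (fun i => hms (D' i)) (fun i => hsub _ (hD' i)) k
  · obtain ⟨b1, b2⟩ := a3 hexp
    refine ⟨?_, fun D' hD' => ?_⟩
    · have e : Pq (Measure.dirac ()) (fun n => x ^ n) G (fun _ => Rab D a b) (m + 2) /
          Pq (Measure.dirac ()) (fun n => x ^ n) G (fun _ => Rab D a b) m =
          FF (Measure.dirac ()) (fun _ : Unit => Rab D a b) (m + 2) * x ^ (m + 2) /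
            (FF (Measure.dirac ()) (fun _ : Unit => Rab D a b) m * x ^ m) := by
        unfold Pq
        rw [div_div_div_cancel_right₀ hG.ne']
      rw [e] at b1
      exact b1
    · exact b2 (fun _ => Rab D' a b) (hms D') (hsub D' hD')

end

end Q78.Z3
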