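import Pool.Agent.Q78.Z3.Seq

set_option autoImplicit false

/-! Approximately log-convex sequences with an upper bound near one place only. -/

namespace Q78.Z3.Loc

open Finset Filter Topology Q78.UR Q78.Z3

variable {s N : ℕ} {D θ : ℝ} {x : ℕ → ℝ}

/-- **neighbouring terms**: the ratio is close to one if one of the two terms is not too small -/
theorem ratio (s : ℕ) (hs : 1 ≤ s) (N : ℕ) (D θ K : ℝ) (hD : 0 ≤ D) (hθ0 : 0 < θ) (hθ1 : θ < 1)
    (hK : 0 ≤ K) : ∃ (C δ : ℝ) (N0 : ℕ), 0 < C ∧ 0 < δ ∧ 3 ≤ N0 ∧ C * √δ ≤ 1 / 2 ∧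
      ∀ x : ℕ → ℝ, Cl s N D θ x → ∀ n, N0 ≤ n → ∀ a : ℝ, 1 ≤ a → a ≤ δ * n →
      (∀ m, n ≤ 2 * m → m ≤ 2 * n → m % s = n % s → x m ≤ Real.exp (K * a)) →
      (Real.exp (-a) ≤ x n ∨ Real.exp (-a) ≤ x (n + s)) →
      |x (n + s) - x n| ≤ C * √(a / n) * x n := by
  obtain ⟨E, hE⟩ : ∃ E : ℝ, E = D + s := ⟨_, rfl⟩
  have hsR : (1 : ℝ) ≤ s := by exact_mod_cast hs
  have hE1 : 1 ≤ E := by linarith
  obtain ⟨Q, hQ⟩ : ∃ Q : ℝ, Q = 256 * E * (2 + 4 * K) := ⟨_, rfl⟩
  have hQ0 : 0 < Q := by rw [hQ]; positivity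
  obtain ⟨C, hC⟩ : ∃ C : ℝ, C = √Q := ⟨_, rfl⟩
  have hC0 : 0 < C := by rw [hC]; exact Real.sqrt_pos.2 hQ0
  have hC2 : C ^ 2 = Q := by rw [hC]; exact Real.sq_sqrt hQ0.le
  have hlθ : 0 < Real.log (1 / θ) := Real.log_pos (by rw [lt_div_iff₀ hθ0]; linarith)
  obtain ⟨δ, hδ⟩ : ∃ δ : ℝ, δ = min (Real.log (1 / θ) / 4) (1 / (4 * C ^ 2)) := ⟨_, rfl⟩
  have hδ0 : 0 < δ := by rw [hδ]; exact lt_min (by linarith) (by positivity)
  have hδ1 : δ ≤ Real.log (1 / θ) / 4 := by rw [hδ]; exact min_le_left _ _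
  have hδ2 : C * √δ ≤ 1 / 2 := by
    have h1 : √δ ≤ √(1 / (4 * C ^ 2)) := Real.sqrt_le_sqrt (by rw [hδ]; exact min_le_right _ _)
    have h2 : √(1 / (4 * C ^ 2)) = 1 / (2 * C) := by
      rw [show 1 / (4 * C ^ 2) = (1 / (2 * C)) ^ 2 by rw [div_pow, mul_pow]; norm_num,
        Real.sqrt_sq (by positivity)]
    rw [h2] at h1
    calc C * √δ ≤ C * (1 / (2 * C)) := mul_le_mul_of_nonneg_left h1 hC0.le
      _ = 1 / 2 := by field_simp
  refine ⟨C, δ, 2 * N + 2 * s + 4, hC0, hδ0, by omega, hδ2, ?_⟩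
  intro x hx n hn a ha ha2 hup hor
  have hn3 : 3 ≤ n := by omega
  have hnR : (0 : ℝ) < n := by
    have : 0 < n := by omega
    exact_mod_cast this
  obtain ⟨ε, hε⟩ : ∃ ε : ℝ, ε = C * √(a / n) := ⟨_, rfl⟩
  have hε0 : 0 < ε := by rw [hε]; exact mul_pos hC0 (Real.sqrt_pos.2 (by positivity))
  have hε1 : ε ≤ 1 / 2 := by
    rw [hε]
    refine le_trans (mul_le_mul_of_nonneg_left (Real.sqrt_le_sqrt ?_) hC0.le) hδ2
    rw [div_le_iff₀ hnR]
    exact ha2
  have hε2 : ε ^ 2 * n = Q * a := by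
    rw [hε, mul_pow, Real.sq_sqrt (by positivity), hC2]
    field_simp
  rw [← hε]
  have hxn := hx.nn n
  have hKl : K * a ≤ 4 * K * a := by
    have : 0 ≤ K * a := by positivity
    linarith
  have hKa : 0 ≤ K * a := by positivity
  rw [abs_le]
  constructor
  · -- lower bound
    by_contra hcon
    have h1 : x (n + s) ≤ (1 - ε) * x n := by linarith
    have h2 : Real.exp (-a) ≤ x n := by
      rcases hor with h | h
      · exact h
      · refine h.trans (h1.trans ?_)
        nlinarith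
    obtain ⟨J, hJ⟩ : ∃ J : ℕ, J = ⌊ε * n / (8 * E)⌋₊ := ⟨_, rfl⟩
    have hJ1 : (J : ℝ) ≤ ε * n / (8 * E) := by
      rw [hJ]; exact Nat.floor_le (by positivity)
    have hJ2 : ε * n / (8 * E) < J + 1 := by rw [hJ]; exact Nat.lt_floor_add_one _
    rw [le_div_iff₀ (by positivity)] at hJ1
    have hJ0 : (0 : ℝ) ≤ J := Nat.cast_nonneg _
    have hJs : (J : ℝ) * s ≤ n / 2 := by
      have h3 : (J : ℝ) * s ≤ J * E := mul_le_mul_of_nonneg_left (by linarith) hJ0
      nlinarith
    have hJs' : J * s ≤ n / 2 := by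
      rw [Nat.le_div_iff_mul_le (by norm_num)]
      have : (J : ℝ) * s * 2 ≤ n := by linarith
      exact_mod_cast this
    have hJD : 2 * (J : ℝ) * D ≤ ε * n / 4 := by
      have h3 : (J : ℝ) * D ≤ J * E := mul_le_mul_of_nonneg_left (by linarith) hJ0
      nlinarith
    have hfin := (backward hx hD (n := n) (m := n - J * s) (J := J) (ε := ε) (by omega) (by omega)
      (by omega) (by omega) hε0 (by linarith) (Real.exp_pos (-a))
      (fun i hi => pow_le_exp hθ0 hδ1 hδ0 ha2 (by omega)) h1 h2 hJD J le_rfl 0 (by omega)).2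
    rw [zero_mul, add_zero] at hfin
    have h4 : x (n - J * s) ≤ Real.exp (4 * K * a) := by
      exact (hup _ (by omega) (by omega) (by
        rw [mul_comm J s]
        exact Nat.sub_mul_mod (by rw [mul_comm]; omega))).trans (Real.exp_le_exp.2 hKl)
    have h5 := grow_end hε0 (by linarith) (hfin.trans h4)
    have h6 : ε * n / (8 * E) * (ε / 4) ≤ (J + 1) * (ε / 4) :=
      mul_le_mul_of_nonneg_right hJ2.le (by linarith)
    have h7 : ε * n / (8 * E) * (ε / 4) = 16 * a + 32 * (K * a) := by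
      have : ε * n / (8 * E) * (ε / 4) = ε ^ 2 * n / (32 * E) := by field_simp; ring
      rw [this, hε2, hQ]
      field_simp
      ring
    have h8 : ((J : ℝ) + 1) * (ε / 4) = J * (ε / 4) + ε / 4 := by ring
    have h9 : 4 * K * a = 4 * (K * a) := by ring
    linarith
  · by_contra hcon
    have h1 : (1 + ε) * x n ≤ x (n + s) := by linarith
    have h2 : Real.exp (-a) ≤ x (n + s) := by
      rcases hor with h | h
      · refine h.trans (le_trans ?_ h1)
        nlinarith
      · exact h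
    obtain ⟨J, hJ⟩ : ∃ J : ℕ, J = ⌊ε * n / (4 * E)⌋₊ := ⟨_, rfl⟩
    have hJ1 : (J : ℝ) ≤ ε * n / (4 * E) := by
      rw [hJ]; exact Nat.floor_le (by positivity)
    have hJ2 : ε * n / (4 * E) < J + 1 := by rw [hJ]; exact Nat.lt_floor_add_one _
    rw [le_div_iff₀ (by positivity)] at hJ1
    have hJ0 : (0 : ℝ) ≤ J := Nat.cast_nonneg _
    have hJs : (J : ℝ) * s ≤ n / 2 := by
      have h3 : (J : ℝ) * s ≤ J * E := mul_le_mul_of_nonneg_left (by linarith) hJ0
      nlinarith
    have hJs' : J * s ≤ n / 2 := by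
      rw [Nat.le_div_iff_mul_le (by norm_num)]
      have : (J : ℝ) * s * 2 ≤ n := by linarith
      exact_mod_cast this
    have hJD : (J : ℝ) * D ≤ ε * n / 4 := by
      have h3 : (J : ℝ) * D ≤ J * E := mul_le_mul_of_nonneg_left (by linarith) hJ0
      nlinarith
    have hfin := (forward hx hD (n := n) (J := J) (ε := ε) (by omega) (by omega) hε0
      (by linarith) (Real.exp_pos (-a))
      (fun i hi => pow_le_exp hθ0 hδ1 hδ0 ha2 (by omega)) h1 h2 hJD J le_rfl).2
    have e : (J + 1) * s = J * s + s := by ring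
    have h4 : x (n + (J + 1) * s) ≤ Real.exp (4 * K * a) := by
      exact (hup _ (by omega) (by omega) (Nat.add_mul_mod_self_right _ _ _)).trans
        (Real.exp_le_exp.2 hKl)
    have h5 := grow_end hε0 (by linarith) (hfin.trans h4)
    have h6 : ε * n / (4 * E) * (ε / 4) ≤ (J + 1) * (ε / 4) :=
      mul_le_mul_of_nonneg_right hJ2.le (by linarith)
    have h7 : ε * n / (4 * E) * (ε / 4) = 32 * a + 64 * (K * a) := by
      have : ε * n / (4 * E) * (ε / 4) = ε ^ 2 * n / (16 * E) := by field_simp; ring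
      rw [this, hε2, hQ]
      field_simp
      ring
    have h8 : ((J : ℝ) + 1) * (ε / 4) = J * (ε / 4) + ε / 4 := by ring
    have h9 : 4 * K * a = 4 * (K * a) := by ring
    linarith

/-- **ratio and quotient at neighbouring places** -/
theorem nested (s : ℕ) (hs : 1 ≤ s) (N : ℕ) (D θ K : ℝ) (hD : 0 ≤ D) (hθ0 : 0 < θ) (hθ1 : θ < 1)
    (hK : 0 ≤ K) : ∃ (C δ : ℝ) (N0 : ℕ), 0 < C ∧ 0 < δ ∧ 3 ≤ N0 ∧
      ∀ x y : ℕ → ℝ, Cl s N D θ x → Cl s N D θ y → (∀ n, y n ≤ x n) → ∀ n, N0 ≤ n →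
      ∀ a : ℝ, 1 ≤ a → a ≤ δ * n → (∀ m, n ≤ 2 * m → m ≤ 2 * n → m % s = n % s → x m ≤ Real.exp (K * a)) →
      Real.exp (-a) ≤ x n →
      |x (n + s) / x n - 1| ≤ C * √(a / n) ∧
      |y (n + s) / x (n + s) - y n / x n| ≤ C * √(a / n) := by
  obtain ⟨C, δ, N0, hC, hδ, hN0, hCδ, h⟩ := ratio s hs N D θ K hD hθ0 hθ1 hK
  obtain ⟨N1, hN1⟩ := eventually_atTop.1 (exp_small (δ / 2) (by linarith))
  refine ⟨2 * (C + max C 1), δ / 2, max N0 N1, by positivity, by linarith,
    hN0.trans (le_max_left _ _), ?_⟩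
  intro x y hx hy hyx n hn a ha ha2 hup hax
  have hnN0 : N0 ≤ n := le_trans (le_max_left _ _) hn
  have hnN1 : N1 ≤ n := le_trans (le_max_right _ _) hn
  have hn3 : 3 ≤ n := hN0.trans hnN0
  have hnR : (0 : ℝ) < n := by
    have : 0 < n := by omega
    exact_mod_cast this
  have ha3 : a ≤ δ * n := by nlinarith
  have hX : 0 < x n := lt_of_lt_of_le (Real.exp_pos _) hax
  obtain ⟨e, he⟩ : ∃ e, e = √(a / n) := ⟨_, rfl⟩
  have he0 : 0 ≤ e := by rw [he]; exact Real.sqrt_nonneg _
  have hCe : C * e ≤ 1 / 2 := by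
    refine le_trans (mul_le_mul_of_nonneg_left ?_ hC.le) hCδ
    rw [he]
    refine Real.sqrt_le_sqrt ?_
    rw [div_le_iff₀ hnR]
    exact ha3
  have r1 := h x hx n hnN0 a ha ha3 hup (Or.inl hax)
  rw [← he] at r1 ⊢
  have r2 : |y (n + s) - y n| ≤ max C 1 * e * x n := by
    obtain ⟨M, hM⟩ : ∃ M, M = max (y n) (y (n + s)) := ⟨_, rfl⟩
    have hyn := hy.nn n
    have hyn' := hy.nn (n + s)
    by_cases hc : Real.exp (-(δ * n)) ≤ M
    · have hM0 : 0 < M := lt_of_lt_of_le (Real.exp_pos _) hc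
      obtain ⟨a', ha'⟩ : ∃ a', a' = max a (-Real.log M) := ⟨_, rfl⟩
      have h1 : a ≤ a' := by rw [ha']; exact le_max_left _ _
      have h2 : Real.exp (-a') ≤ M := by
        have : -Real.log M ≤ a' := by rw [ha']; exact le_max_right _ _
        calc Real.exp (-a') ≤ Real.exp (Real.log M) := Real.exp_le_exp.2 (by linarith)
          _ = M := Real.exp_log hM0
      have h3 : a' ≤ δ * n := by
        rw [ha']
        refine max_le ha3 ?_
        have := Real.log_le_log (Real.exp_pos _) hc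
        rw [Real.log_exp] at this
        linarith
      have h4 := h y hy n hnN0 a' (ha.trans h1) h3 (fun m hm2 hm hm3 => (hyx m).trans
        ((hup m hm2 hm hm3).trans (Real.exp_le_exp.2 (mul_le_mul_of_nonneg_left h1 hK))))
        (by rwa [hM, le_max_iff] at h2)
      have h5 : √(a' / n) * y n ≤ e * x n := by
        rcases le_total (-Real.log M) a with h6 | h6
        · have h7 : a' = a := by rw [ha']; exact max_eq_left h6
          rw [h7, ← he]
          exact mul_le_mul_of_nonneg_left (hyx n) he0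
        · have h7 : a' = -Real.log M := by rw [ha']; exact max_eq_right h6
          have h8 : y n ≤ Real.exp (-a') := by
            rw [h7, neg_neg, Real.exp_log hM0, hM]
            exact le_max_left _ _
          have h9 := sqrt_shift ha h1 hnR
          rw [← he] at h9
          calc √(a' / n) * y n ≤ (e * Real.exp (a' - a)) * Real.exp (-a') :=
                mul_le_mul h9 h8 hyn (by positivity)
            _ = e * Real.exp (-a) := by
                rw [mul_assoc, ← Real.exp_add]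
                ring_nf
            _ ≤ e * x n := mul_le_mul_of_nonneg_left hax he0
      calc |y (n + s) - y n| ≤ C * √(a' / n) * y n := h4
        _ = C * (√(a' / n) * y n) := by ring
        _ ≤ C * (e * x n) := mul_le_mul_of_nonneg_left h5 hC.le
        _ ≤ max C 1 * (e * x n) := mul_le_mul_of_nonneg_right (le_max_left _ _) (by positivity)
        _ = _ := by ring
    · push Not at hc
      have h1 : |y (n + s) - y n| ≤ M := by
        rw [abs_le]
        have m1 : y n ≤ M := by rw [hM]; exact le_max_left _ _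
        have m2 : y (n + s) ≤ M := by rw [hM]; exact le_max_right _ _
        constructor <;> linarith
      have h2 : Real.exp (-(δ * n)) ≤ Real.exp (-(δ / 2 * n)) * x n := by
        calc Real.exp (-(δ * n)) = Real.exp (-(δ / 2 * n)) * Real.exp (-(δ / 2 * n)) := by
              rw [← Real.exp_add]; ring_nf
          _ ≤ Real.exp (-(δ / 2 * n)) * Real.exp (-a) :=
              mul_le_mul_of_nonneg_left (Real.exp_le_exp.2 (by linarith)) (Real.exp_pos _).le
          _ ≤ _ := mul_le_mul_of_nonneg_left hax (Real.exp_pos _).le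
      have h3 := hN1 n hnN1
      have h4 : 1 / √(n : ℝ) ≤ e := by
        rw [he, Real.sqrt_div (by linarith)]
        refine div_le_div_of_nonneg_right ?_ (Real.sqrt_nonneg _)
        rw [Real.one_le_sqrt]
        exact ha
      calc |y (n + s) - y n| ≤ M := h1
        _ ≤ Real.exp (-(δ / 2 * n)) * x n := hc.le.trans h2
        _ ≤ e * x n := mul_le_mul_of_nonneg_right (h3.trans h4) hX.le
        _ ≤ max C 1 * (e * x n) := by
            have : (1 : ℝ) ≤ max C 1 := le_max_right _ _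
            have h5 : 0 ≤ e * x n := by positivity
            nlinarith
        _ = _ := by ring
  constructor
  · have h1 : x (n + s) / x n - 1 = (x (n + s) - x n) / x n := by field_simp
    rw [h1, abs_div, abs_of_pos hX, div_le_iff₀ hX]
    refine r1.trans ?_
    have h2 : 0 ≤ e * x n := by positivity
    have h3 : C ≤ 2 * (C + max C 1) := by
      have : (1 : ℝ) ≤ max C 1 := le_max_right _ _
      linarith
    calc C * e * x n = C * (e * x n) := by ring
      _ ≤ 2 * (C + max C 1) * (e * x n) := mul_le_mul_of_nonneg_right h3 h2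
      _ = _ := by ring
  · exact quot_aux hX (hy.nn n) (hyx n) he0 hC.le (by positivity) hCe r1 r2

end Q78.Z3.Loc
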