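import Pool.Agent.Q78.UR.Cond

set_option autoImplicit false

/-! Approximately log-convex sequences with an arbitrary upper bound near one place: the ratio of
neighbours, and the quotient of two such sequences. -/

namespace Q78.Z3

open Finset Filter Topology Q78.UR

/-- approximate logarithmic convexity as long as the terms are not too small -/
structure Cl (s N : ℕ) (D θ : ℝ) (x : ℕ → ℝ) : Prop where
  nn : ∀ n, 0 ≤ x n
  kes : ∀ n, N ≤ n → θ ^ (n + s) ≤ x (n + s) →
    x (n + s) ^ 2 ≤ x n * x (n + 2 * s) * (1 + D / n)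

variable {s N : ℕ} {D θ : ℝ} {x : ℕ → ℝ}

/-- growth of the terms after a large ratio -/
theorem forward (h : Cl s N D θ x) (hD : 0 ≤ D) {n J : ℕ} {ε b : ℝ} (hn : N ≤ n) (hn1 : 1 ≤ n)
    (hε0 : 0 < ε) (hε1 : ε ≤ 1) (hb : 0 < b) (hθ : ∀ m, n ≤ m → θ ^ m ≤ b)
    (h1 : (1 + ε) * x n ≤ x (n + s)) (h2 : b ≤ x (n + s)) (hJ : (J : ℝ) * D ≤ ε * n / 4) :
    ∀ k, k ≤ J → (1 + ε) * (1 - k * D / n) * x (n + k * s) ≤ x (n + (k + 1) * s) ∧
      (1 + ε / 2) ^ k * b ≤ x (n + (k + 1) * s) := by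
  have hnR : (0 : ℝ) < n := by exact_mod_cast hn1
  intro k
  induction k with
  | zero =>
    intro _
    simp only [Nat.cast_zero, zero_mul, zero_div, sub_zero, mul_one, add_zero, zero_add, one_mul,
      pow_zero]
    exact ⟨h1, h2⟩
  | succ k ih =>
    intro hk
    obtain ⟨i1, i2⟩ := ih (by omega)
    have hkJ : ((k : ℝ) + 1) * D ≤ ε * n / 4 := by
      have : ((k : ℝ) + 1) ≤ J := by exact_mod_cast hk
      exact (mul_le_mul_of_nonneg_right this hD).trans hJ
    have hkd : ((k : ℝ) + 1) * D / n ≤ ε / 4 := by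
      rw [div_le_iff₀ hnR]
      linarith
    have hd0 : 0 ≤ D / n := div_nonneg hD hnR.le
    have hkd' : (k : ℝ) * D / n + D / n ≤ ε / 4 := by
      have e : ((k : ℝ) + 1) * D / n = (k : ℝ) * D / n + D / n := by ring
      linarith
    have hk0 : 0 ≤ (k : ℝ) * D / n := by positivity
    obtain ⟨t, ht⟩ : ∃ t, t = (k : ℝ) * D / n := ⟨_, rfl⟩
    obtain ⟨d, hd⟩ : ∃ d, d = D / n := ⟨_, rfl⟩
    have et : (1 - ((k : ℕ) : ℝ) * D / n) = 1 - t := by rw [ht]
    rw [et] at i1
    rw [← ht] at hkd' hk0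
    rw [← hd] at hkd' hd0
    have hy : 0 < x (n + (k + 1) * s) := lt_of_lt_of_le (by positivity) i2
    have hby : b ≤ x (n + (k + 1) * s) := by
      refine le_trans ?_ i2
      have : (1 : ℝ) ≤ (1 + ε / 2) ^ k := one_le_pow₀ (by linarith)
      nlinarith
    have e1 : n + k * s + s = n + (k + 1) * s := by ring
    have e2 : n + k * s + 2 * s = n + (k + 1 + 1) * s := by ring
    have hkes := h.kes (n + k * s) (by omega) (by
      rw [e1]
      exact (hθ _ (by omega)).trans hby)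
    rw [e1, e2] at hkes
    have hd' : D / ((n + k * s : ℕ) : ℝ) ≤ d := by
      rw [hd]
      refine div_le_div_of_nonneg_left hD hnR ?_
      push_cast
      have : (0 : ℝ) ≤ (k : ℝ) * s := by positivity
      linarith
    obtain ⟨y, hyd⟩ : ∃ y, y = x (n + (k + 1) * s) := ⟨_, rfl⟩
    obtain ⟨u, hu⟩ : ∃ u, u = x (n + k * s) := ⟨_, rfl⟩
    obtain ⟨v, hv⟩ : ∃ v, v = x (n + (k + 1 + 1) * s) := ⟨_, rfl⟩
    have hu0 : 0 ≤ u := by rw [hu]; exact h.nn _
    have hv0 : 0 ≤ v := by rw [hv]; exact h.nn _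
    rw [← hyd] at hkes hy i1 hby i2
    rw [← hu] at hkes i1
    rw [← hv] at hkes
    have hkes' : y ^ 2 ≤ u * v * (1 + d) :=
      hkes.trans (mul_le_mul_of_nonneg_left (by linarith) (by positivity))
    have hρ : 0 < (1 + ε) * (1 - t) := by
      have : 0 < 1 - t := by linarith
      positivity
    -- `ρ y ≤ v (1 + d)`
    have h3 : (1 + ε) * (1 - t) * y ≤ v * (1 + d) := by
      have h4 : (1 + ε) * (1 - t) * (y ^ 2) ≤ y * (v * (1 + d)) := by
        calc (1 + ε) * (1 - t) * (y ^ 2) ≤ (1 + ε) * (1 - t) * (u * v * (1 + d)) :=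
              mul_le_mul_of_nonneg_left hkes' hρ.le
          _ = ((1 + ε) * (1 - t) * u) * (v * (1 + d)) := by ring
          _ ≤ y * (v * (1 + d)) := mul_le_mul_of_nonneg_right i1 (by positivity)
      have h5 : y * ((1 + ε) * (1 - t) * y) ≤ y * (v * (1 + d)) := by
        calc y * ((1 + ε) * (1 - t) * y) = (1 + ε) * (1 - t) * (y ^ 2) := by ring
          _ ≤ _ := h4
      exact le_of_mul_le_mul_left h5 hy
    have h6 : (1 + ε) * (1 - (t + d)) * y ≤ v := by
      have h7 : (1 + ε) * (1 - (t + d)) * (1 + d) ≤ (1 + ε) * (1 - t) := by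
        have : (1 - (t + d)) * (1 + d) ≤ 1 - t := by nlinarith
        have h8 := mul_le_mul_of_nonneg_left this (show (0 : ℝ) ≤ 1 + ε by linarith)
        linarith
      have h9 : (1 + ε) * (1 - (t + d)) * y * (1 + d) ≤ v * (1 + d) := by
        calc (1 + ε) * (1 - (t + d)) * y * (1 + d) = (1 + ε) * (1 - (t + d)) * (1 + d) * y := by ring
          _ ≤ (1 + ε) * (1 - t) * y := mul_le_mul_of_nonneg_right h7 hy.le
          _ ≤ _ := h3
      exact le_of_mul_le_mul_right h9 (by linarith)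
    refine ⟨?_, ?_⟩
    · have e3 : (1 - ((k + 1 : ℕ) : ℝ) * D / n) = 1 - (t + d) := by
        rw [ht, hd]; push_cast; ring
      rw [e3, ← hyd, ← hv]
      exact h6
    · rw [← hv, pow_succ]
      have h10 : 1 + ε / 2 ≤ (1 + ε) * (1 - (t + d)) := by nlinarith
      calc (1 + ε / 2) ^ k * (1 + ε / 2) * b = (1 + ε / 2) * ((1 + ε / 2) ^ k * b) := by ring
        _ ≤ (1 + ε / 2) * y := mul_le_mul_of_nonneg_left i2 (by linarith)
        _ ≤ (1 + ε) * (1 - (t + d)) * y := mul_le_mul_of_nonneg_right h10 hy.le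
        _ ≤ v := h6

/-- growth of the terms before a small ratio -/
theorem backward (h : Cl s N D θ x) (hD : 0 ≤ D) {n m J : ℕ} {ε b : ℝ} (hm : N ≤ m)
    (hm1 : 1 ≤ m) (hnm : m + J * s = n) (hmn : n ≤ 2 * m)
    (hε0 : 0 < ε) (hε1 : ε ≤ 1) (hb : 0 < b) (hθ : ∀ i, m ≤ i → θ ^ i ≤ b)
    (h1 : x (n + s) ≤ (1 - ε) * x n) (h2 : b ≤ x n) (hJ : 2 * (J : ℝ) * D ≤ ε * n / 4) :
    ∀ k, k ≤ J → ∀ i, i + k = J →
      x (m + (i + 1) * s) ≤ (1 - ε) * (1 + 2 * D / n) ^ k * x (m + i * s) ∧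
      (1 + ε / 2) ^ k * b ≤ x (m + i * s) := by
  have hnR : (0 : ℝ) < n := by
    have : 0 < n := by omega
    exact_mod_cast this
  intro k
  induction k with
  | zero =>
    intro _ i hi
    have hi' : i = J := by omega
    subst hi'
    have e : m + (i + 1) * s = n + s := by rw [← hnm]; ring
    rw [e, hnm]
    simp only [pow_zero, mul_one, one_mul]
    exact ⟨h1, h2⟩
  | succ k ih =>
    intro hk i hi
    obtain ⟨i1, i2⟩ := ih (by omega) (i + 1) (by omega)
    have hd0 : 0 ≤ 2 * D / n := by positivity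
    obtain ⟨d, hd⟩ : ∃ d, d = 2 * D / n := ⟨_, rfl⟩
    rw [← hd] at i1 hd0
    have hσ : ∀ j, j ≤ J → (1 + d) ^ j ≤ 1 + ε / 2 := by
      intro j hj
      have h3 : (1 + d) ^ j ≤ Real.exp (j * d) := by
        have := Real.add_one_le_exp d
        rw [mul_comm, Real.exp_mul, Real.rpow_natCast]
        exact pow_le_pow_left₀ (by linarith) (by linarith) j
      have h4 : (j : ℝ) * d ≤ ε / 4 := by
        rw [hd]
        have h5 : (j : ℝ) ≤ J := by exact_mod_cast hj
        have h6 : (j : ℝ) * (2 * D) ≤ J * (2 * D) := mul_le_mul_of_nonneg_right h5 (by linarith)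
        rw [mul_div_assoc'  , div_le_iff₀ hnR]
        linarith
      have h7 : Real.exp (ε / 4) ≤ 1 + ε / 2 := by
        have h8 : |ε / 4| ≤ 1 := by rw [abs_of_pos (by linarith)]; linarith
        have h9 := Real.abs_exp_sub_one_le h8
        rw [abs_of_pos (show 0 < ε / 4 by linarith)] at h9
        have := le_abs_self (Real.exp (ε / 4) - 1)
        linarith
      exact h3.trans ((Real.exp_le_exp.2 h4).trans h7)
    have hy : b ≤ x (m + (i + 1) * s) := by
      refine le_trans ?_ i2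
      have : (1 : ℝ) ≤ (1 + ε / 2) ^ k := one_le_pow₀ (by linarith)
      nlinarith
    have e1 : m + i * s + s = m + (i + 1) * s := by ring
    have e2 : m + i * s + 2 * s = m + (i + 1 + 1) * s := by ring
    have hkes := h.kes (m + i * s) (by omega) (by
      rw [e1]
      exact (hθ _ (by omega)).trans hy)
    rw [e1, e2] at hkes
    have hd' : D / ((m + i * s : ℕ) : ℝ) ≤ d := by
      rw [hd]
      have hpos : (0 : ℝ) < ((m + i * s : ℕ) : ℝ) := by
        have : 0 < m + i * s := by omega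
        exact_mod_cast this
      rw [div_le_div_iff₀ hpos hnR]
      have h5 : (n : ℝ) ≤ 2 * ((m + i * s : ℕ) : ℝ) := by
        have : n ≤ 2 * (m + i * s) := by omega
        exact_mod_cast this
      nlinarith
    obtain ⟨y, hyd⟩ : ∃ y, y = x (m + (i + 1) * s) := ⟨_, rfl⟩
    obtain ⟨u, hu⟩ : ∃ u, u = x (m + i * s) := ⟨_, rfl⟩
    obtain ⟨v, hv⟩ : ∃ v, v = x (m + (i + 1 + 1) * s) := ⟨_, rfl⟩
    have hu0 : 0 ≤ u := by rw [hu]; exact h.nn _
    have hv0 : 0 ≤ v := by rw [hv]; exact h.nn _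
    rw [← hyd] at hkes hy i1 i2
    rw [← hu] at hkes
    rw [← hv] at hkes i1
    have hy0 : 0 < y := lt_of_lt_of_le hb hy
    have hkes' : y ^ 2 ≤ u * v * (1 + d) :=
      hkes.trans (mul_le_mul_of_nonneg_left (by linarith) (by positivity))
    have h3 : y ≤ (1 - ε) * (1 + d) ^ (k + 1) * u := by
      have h4 : y * y ≤ y * ((1 - ε) * (1 + d) ^ (k + 1) * u) := by
        calc y * y = y ^ 2 := by ring
          _ ≤ u * v * (1 + d) := hkes'
          _ ≤ u * ((1 - ε) * (1 + d) ^ k * y) * (1 + d) :=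
              mul_le_mul_of_nonneg_right (mul_le_mul_of_nonneg_left i1 hu0) (by linarith)
          _ = _ := by rw [pow_succ]; ring
      exact le_of_mul_le_mul_left h4 hy0
    refine ⟨?_, ?_⟩
    · rw [← hyd, ← hu, ← hd]
      exact h3
    · rw [← hu, pow_succ]
      have h5 := hσ (k + 1) hk
      have h6 : (1 - ε) * (1 + d) ^ (k + 1) ≤ 1 - ε / 2 := by
        calc (1 - ε) * (1 + d) ^ (k + 1) ≤ (1 - ε) * (1 + ε / 2) :=
              mul_le_mul_of_nonneg_left h5 (by linarith)
          _ ≤ _ := by nlinarith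
      have h7 : y ≤ (1 - ε / 2) * u := h3.trans (mul_le_mul_of_nonneg_right h6 hu0)
      have h8 : (1 + ε / 2) * y ≤ u := by
        calc (1 + ε / 2) * y ≤ (1 + ε / 2) * ((1 - ε / 2) * u) :=
              mul_le_mul_of_nonneg_left h7 (by linarith)
          _ = (1 - ε ^ 2 / 4) * u := by ring
          _ ≤ 1 * u := mul_le_mul_of_nonneg_right (by nlinarith) hu0
          _ = u := one_mul u
      calc (1 + ε / 2) ^ k * (1 + ε / 2) * b = (1 + ε / 2) * ((1 + ε / 2) ^ k * b) := by ring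
        _ ≤ (1 + ε / 2) * y := mul_le_mul_of_nonneg_left i2 (by linarith)
        _ ≤ u := h8

/-- **neighbouring terms**: the ratio is close to one if one of the two terms is not too small -/
theorem ratio (s : ℕ) (hs : 1 ≤ s) (N : ℕ) (D θ K : ℝ) (hD : 0 ≤ D) (hθ0 : 0 < θ) (hθ1 : θ < 1)
    (hK : 0 ≤ K) : ∃ (C δ : ℝ) (N0 : ℕ), 0 < C ∧ 0 < δ ∧ 3 ≤ N0 ∧ C * √δ ≤ 1 / 2 ∧
      ∀ x : ℕ → ℝ, Cl s N D θ x → ∀ n, N0 ≤ n → ∀ a : ℝ, 1 ≤ a → a ≤ δ * n →
      (∀ m, 2 ≤ m → m ≤ 2 * n → x m ≤ Real.exp (K * a)) →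
      (Real.exp (-a) ≤ x n ∨ Real.exp (-a) ≤ x (n + s)) →
      |x (n + s) - x n| ≤ C * √(a / n) * x n := by
  obtain ⟨E, hE⟩ : ∃ E : ℝ, E = D + s := ⟨_, rfl⟩
  have hsR : (1 : ℝ) ≤ s := by exact_mod_cast hs
  have hE1 : 1 ≤ E := by linarith
  obtain ⟨Q, hQ⟩ : ∃ Q : ℝ, Q = 256 * E * (2 + 4 * K) := ⟨_, rfl⟩
  have hQ0 : 0 < Q := by rw [hQ]; positivity
  obtain ⟨C, hC⟩ : ∃ C : ℝ, C = √Q := ⟨_, rfl⟩
  have hC0 : 0 < C := by rw [hC]; exact Real.sqrt_pos.2 hQ0
  have hC2 : C ^ 2 = Q := by rw [hC]; exact Real.sq_sqrt hQ0.le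
  have hlθ : 0 < Real.log (1 / θ) := Real.log_pos (by rw [lt_div_iff₀ hθ0]; linarith)
  obtain ⟨δ, hδ⟩ : ∃ δ : ℝ, δ = min (Real.log (1 / θ) / 4) (1 / (4 * C ^ 2)) := ⟨_, rfl⟩
  have hδ0 : 0 < δ := by rw [hδ]; exact lt_min (by linarith) (by positivity)
  have hδ1 : δ ≤ Real.log (1 / θ) / 4 := by rw [hδ]; exact min_le_left _ _
  have hδ2 : C * √δ ≤ 1 / 2 := by
    have h1 : √δ ≤ √(1 / (4 * C ^ 2)) := Real.sqrt_le_sqrt (by rw [hδ]; exact min_le_right _ _)
    have h2 : √(1 / (4 * C ^ 2)) = 1 / (2 * C) := by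
      rw [show 1 / (4 * C ^ 2) = (1 / (2 * C)) ^ 2 by rw [div_pow, mul_pow]; norm_num,
        Real.sqrt_sq (by positivity)]
    rw [h2] at h1
    calc C * √δ ≤ C * (1 / (2 * C)) := mul_le_mul_of_nonneg_left h1 hC0.le
      _ = 1 / 2 := by field_simp
  refine ⟨C, δ, 2 * N + 2 * s + 4, hC0, hδ0, by omega, hδ2, ?_⟩
  intro x hx n hn a ha ha2 hup hor
  have hn3 : 3 ≤ n := by omega
  have hnR : (0 : ℝ) < n := by
    have : 0 < n := by omega
    exact_mod_cast this
  obtain ⟨ε, hε⟩ : ∃ ε : ℝ, ε = C * √(a / n) := ⟨_, rfl⟩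
  have hε0 : 0 < ε := by rw [hε]; exact mul_pos hC0 (Real.sqrt_pos.2 (by positivity))
  have hε1 : ε ≤ 1 / 2 := by
    rw [hε]
    refine le_trans (mul_le_mul_of_nonneg_left (Real.sqrt_le_sqrt ?_) hC0.le) hδ2
    rw [div_le_iff₀ hnR]
    exact ha2
  have hε2 : ε ^ 2 * n = Q * a := by
    rw [hε, mul_pow, Real.sq_sqrt (by positivity), hC2]
    field_simp
  rw [← hε]
  have hxn := hx.nn n
  have hKl : K * a ≤ 4 * K * a := by
    have : 0 ≤ K * a := by positivity
    linarith
  have hKa : 0 ≤ K * a := by positivity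
  rw [abs_le]
  constructor
  · -- lower bound
    by_contra hcon
    have h1 : x (n + s) ≤ (1 - ε) * x n := by linarith
    have h2 : Real.exp (-a) ≤ x n := by
      rcases hor with h | h
      · exact h
      · refine h.trans (h1.trans ?_)
        nlinarith
    obtain ⟨J, hJ⟩ : ∃ J : ℕ, J = ⌊ε * n / (8 * E)⌋₊ := ⟨_, rfl⟩
    have hJ1 : (J : ℝ) ≤ ε * n / (8 * E) := by
      rw [hJ]; exact Nat.floor_le (by positivity)
    have hJ2 : ε * n / (8 * E) < J + 1 := by rw [hJ]; exact Nat.lt_floor_add_one _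
    rw [le_div_iff₀ (by positivity)] at hJ1
    have hJ0 : (0 : ℝ) ≤ J := Nat.cast_nonneg _
    have hJs : (J : ℝ) * s ≤ n / 2 := by
      have h3 : (J : ℝ) * s ≤ J * E := mul_le_mul_of_nonneg_left (by linarith) hJ0
      nlinarith
    have hJs' : J * s ≤ n / 2 := by
      rw [Nat.le_div_iff_mul_le (by norm_num)]
      have : (J : ℝ) * s * 2 ≤ n := by linarith
      exact_mod_cast this
    have hJD : 2 * (J : ℝ) * D ≤ ε * n / 4 := by
      have h3 : (J : ℝ) * D ≤ J * E := mul_le_mul_of_nonneg_left (by linarith) hJ0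
      nlinarith
    have hfin := (backward hx hD (n := n) (m := n - J * s) (J := J) (ε := ε) (by omega) (by omega)
      (by omega) (by omega) hε0 (by linarith) (Real.exp_pos (-a))
      (fun i hi => pow_le_exp hθ0 hδ1 hδ0 ha2 (by omega)) h1 h2 hJD J le_rfl 0 (by omega)).2
    rw [zero_mul, add_zero] at hfin
    have h4 : x (n - J * s) ≤ Real.exp (4 * K * a) := by
      exact (hup _ (by omega) (by omega)).trans (Real.exp_le_exp.2 hKl)
    have h5 := grow_end hε0 (by linarith) (hfin.trans h4)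
    have h6 : ε * n / (8 * E) * (ε / 4) ≤ (J + 1) * (ε / 4) :=
      mul_le_mul_of_nonneg_right hJ2.le (by linarith)
    have h7 : ε * n / (8 * E) * (ε / 4) = 16 * a + 32 * (K * a) := by
      have : ε * n / (8 * E) * (ε / 4) = ε ^ 2 * n / (32 * E) := by field_simp; ring
      rw [this, hε2, hQ]
      field_simp
      ring
    have h8 : ((J : ℝ) + 1) * (ε / 4) = J * (ε / 4) + ε / 4 := by ring
    have h9 : 4 * K * a = 4 * (K * a) := by ring
    linarith
  · by_contra hcon
    have h1 : (1 + ε) * x n ≤ x (n + s) := by linarith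
    have h2 : Real.exp (-a) ≤ x (n + s) := by
      rcases hor with h | h
      · refine h.trans (le_trans ?_ h1)
        nlinarith
      · exact h
    obtain ⟨J, hJ⟩ : ∃ J : ℕ, J = ⌊ε * n / (4 * E)⌋₊ := ⟨_, rfl⟩
    have hJ1 : (J : ℝ) ≤ ε * n / (4 * E) := by
      rw [hJ]; exact Nat.floor_le (by positivity)
    have hJ2 : ε * n / (4 * E) < J + 1 := by rw [hJ]; exact Nat.lt_floor_add_one _
    rw [le_div_iff₀ (by positivity)] at hJ1
    have hJ0 : (0 : ℝ) ≤ J := Nat.cast_nonneg _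
    have hJs : (J : ℝ) * s ≤ n / 2 := by
      have h3 : (J : ℝ) * s ≤ J * E := mul_le_mul_of_nonneg_left (by linarith) hJ0
      nlinarith
    have hJs' : J * s ≤ n / 2 := by
      rw [Nat.le_div_iff_mul_le (by norm_num)]
      have : (J : ℝ) * s * 2 ≤ n := by linarith
      exact_mod_cast this
    have hJD : (J : ℝ) * D ≤ ε * n / 4 := by
      have h3 : (J : ℝ) * D ≤ J * E := mul_le_mul_of_nonneg_left (by linarith) hJ0
      nlinarith
    have hfin := (forward hx hD (n := n) (J := J) (ε := ε) (by omega) (by omega) hε0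
      (by linarith) (Real.exp_pos (-a))
      (fun i hi => pow_le_exp hθ0 hδ1 hδ0 ha2 (by omega)) h1 h2 hJD J le_rfl).2
    have e : (J + 1) * s = J * s + s := by ring
    have h4 : x (n + (J + 1) * s) ≤ Real.exp (4 * K * a) := by
      exact (hup _ (by omega) (by omega)).trans (Real.exp_le_exp.2 hKl)
    have h5 := grow_end hε0 (by linarith) (hfin.trans h4)
    have h6 : ε * n / (4 * E) * (ε / 4) ≤ (J + 1) * (ε / 4) :=
      mul_le_mul_of_nonneg_right hJ2.le (by linarith)
    have h7 : ε * n / (4 * E) * (ε / 4) = 32 * a + 64 * (K * a) := by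
      have : ε * n / (4 * E) * (ε / 4) = ε ^ 2 * n / (16 * E) := by field_simp; ring
      rw [this, hε2, hQ]
      field_simp
      ring
    have h8 : ((J : ℝ) + 1) * (ε / 4) = J * (ε / 4) + ε / 4 := by ring
    have h9 : 4 * K * a = 4 * (K * a) := by ring
    linarith

/-- **ratio and quotient at neighbouring places** -/
theorem nested (s : ℕ) (hs : 1 ≤ s) (N : ℕ) (D θ K : ℝ) (hD : 0 ≤ D) (hθ0 : 0 < θ) (hθ1 : θ < 1)
    (hK : 0 ≤ K) : ∃ (C δ : ℝ) (N0 : ℕ), 0 < C ∧ 0 < δ ∧ 3 ≤ N0 ∧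
      ∀ x y : ℕ → ℝ, Cl s N D θ x → Cl s N D θ y → (∀ n, y n ≤ x n) → ∀ n, N0 ≤ n →
      ∀ a : ℝ, 1 ≤ a → a ≤ δ * n → (∀ m, 2 ≤ m → m ≤ 2 * n → x m ≤ Real.exp (K * a)) →
      Real.exp (-a) ≤ x n →
      |x (n + s) / x n - 1| ≤ C * √(a / n) ∧
      |y (n + s) / x (n + s) - y n / x n| ≤ C * √(a / n) := by
  obtain ⟨C, δ, N0, hC, hδ, hN0, hCδ, h⟩ := ratio s hs N D θ K hD hθ0 hθ1 hK
  obtain ⟨N1, hN1⟩ := eventually_atTop.1 (exp_small (δ / 2) (by linarith))
  refine ⟨2 * (C + max C 1), δ / 2, max N0 N1, by positivity, by linarith,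
    hN0.trans (le_max_left _ _), ?_⟩
  intro x y hx hy hyx n hn a ha ha2 hup hax
  have hnN0 : N0 ≤ n := le_trans (le_max_left _ _) hn
  have hnN1 : N1 ≤ n := le_trans (le_max_right _ _) hn
  have hn3 : 3 ≤ n := hN0.trans hnN0
  have hnR : (0 : ℝ) < n := by
    have : 0 < n := by omega
    exact_mod_cast this
  have ha3 : a ≤ δ * n := by nlinarith
  have hX : 0 < x n := lt_of_lt_of_le (Real.exp_pos _) hax
  obtain ⟨e, he⟩ : ∃ e, e = √(a / n) := ⟨_, rfl⟩
  have he0 : 0 ≤ e := by rw [he]; exact Real.sqrt_nonneg _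
  have hCe : C * e ≤ 1 / 2 := by
    refine le_trans (mul_le_mul_of_nonneg_left ?_ hC.le) hCδ
    rw [he]
    refine Real.sqrt_le_sqrt ?_
    rw [div_le_iff₀ hnR]
    exact ha3
  have r1 := h x hx n hnN0 a ha ha3 hup (Or.inl hax)
  rw [← he] at r1 ⊢
  have r2 : |y (n + s) - y n| ≤ max C 1 * e * x n := by
    obtain ⟨M, hM⟩ : ∃ M, M = max (y n) (y (n + s)) := ⟨_, rfl⟩
    have hyn := hy.nn n
    have hyn' := hy.nn (n + s)
    by_cases hc : Real.exp (-(δ * n)) ≤ M
    · have hM0 : 0 < M := lt_of_lt_of_le (Real.exp_pos _) hc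
      obtain ⟨a', ha'⟩ : ∃ a', a' = max a (-Real.log M) := ⟨_, rfl⟩
      have h1 : a ≤ a' := by rw [ha']; exact le_max_left _ _
      have h2 : Real.exp (-a') ≤ M := by
        have : -Real.log M ≤ a' := by rw [ha']; exact le_max_right _ _
        calc Real.exp (-a') ≤ Real.exp (Real.log M) := Real.exp_le_exp.2 (by linarith)
          _ = M := Real.exp_log hM0
      have h3 : a' ≤ δ * n := by
        rw [ha']
        refine max_le ha3 ?_
        have := Real.log_le_log (Real.exp_pos _) hc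
        rw [Real.log_exp] at this
        linarith
      have h4 := h y hy n hnN0 a' (ha.trans h1) h3 (fun m hm2 hm => (hyx m).trans
        ((hup m hm2 hm).trans (Real.exp_le_exp.2 (mul_le_mul_of_nonneg_left h1 hK))))
        (by rwa [hM, le_max_iff] at h2)
      have h5 : √(a' / n) * y n ≤ e * x n := by
        rcases le_total (-Real.log M) a with h6 | h6
        · have h7 : a' = a := by rw [ha']; exact max_eq_left h6
          rw [h7, ← he]
          exact mul_le_mul_of_nonneg_left (hyx n) he0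
        · have h7 : a' = -Real.log M := by rw [ha']; exact max_eq_right h6
          have h8 : y n ≤ Real.exp (-a') := by
            rw [h7, neg_neg, Real.exp_log hM0, hM]
            exact le_max_left _ _
          have h9 := sqrt_shift ha h1 hnR
          rw [← he] at h9
          calc √(a' / n) * y n ≤ (e * Real.exp (a' - a)) * Real.exp (-a') :=
                mul_le_mul h9 h8 hyn (by positivity)
            _ = e * Real.exp (-a) := by
                rw [mul_assoc, ← Real.exp_add]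
                ring_nf
            _ ≤ e * x n := mul_le_mul_of_nonneg_left hax he0
      calc |y (n + s) - y n| ≤ C * √(a' / n) * y n := h4
        _ = C * (√(a' / n) * y n) := by ring
        _ ≤ C * (e * x n) := mul_le_mul_of_nonneg_left h5 hC.le
        _ ≤ max C 1 * (e * x n) := mul_le_mul_of_nonneg_right (le_max_left _ _) (by positivity)
        _ = _ := by ring
    · push Not at hc
      have h1 : |y (n + s) - y n| ≤ M := by
        rw [abs_le]
        have m1 : y n ≤ M := by rw [hM]; exact le_max_left _ _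
        have m2 : y (n + s) ≤ M := by rw [hM]; exact le_max_right _ _
        constructor <;> linarith
      have h2 : Real.exp (-(δ * n)) ≤ Real.exp (-(δ / 2 * n)) * x n := by
        calc Real.exp (-(δ * n)) = Real.exp (-(δ / 2 * n)) * Real.exp (-(δ / 2 * n)) := by
              rw [← Real.exp_add]; ring_nf
          _ ≤ Real.exp (-(δ / 2 * n)) * Real.exp (-a) :=
              mul_le_mul_of_nonneg_left (Real.exp_le_exp.2 (by linarith)) (Real.exp_pos _).le
          _ ≤ _ := mul_le_mul_of_nonneg_left hax (Real.exp_pos _).le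
      have h3 := hN1 n hnN1
      have h4 : 1 / √(n : ℝ) ≤ e := by
        rw [he, Real.sqrt_div (by linarith)]
        refine div_le_div_of_nonneg_right ?_ (Real.sqrt_nonneg _)
        rw [Real.one_le_sqrt]
        exact ha
      calc |y (n + s) - y n| ≤ M := h1
        _ ≤ Real.exp (-(δ / 2 * n)) * x n := hc.le.trans h2
        _ ≤ e * x n := mul_le_mul_of_nonneg_right (h3.trans h4) hX.le
        _ ≤ max C 1 * (e * x n) := by
            have : (1 : ℝ) ≤ max C 1 := le_max_right _ _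
            have h5 : 0 ≤ e * x n := by positivity
            nlinarith
        _ = _ := by ring
  constructor
  · have h1 : x (n + s) / x n - 1 = (x (n + s) - x n) / x n := by field_simp
    rw [h1, abs_div, abs_of_pos hX, div_le_iff₀ hX]
    refine r1.trans ?_
    have h2 : 0 ≤ e * x n := by positivity
    have h3 : C ≤ 2 * (C + max C 1) := by
      have : (1 : ℝ) ≤ max C 1 := le_max_right _ _
      linarith
    calc C * e * x n = C * (e * x n) := by ring
      _ ≤ 2 * (C + max C 1) * (e * x n) := mul_le_mul_of_nonneg_right h3 h2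
      _ = _ := by ring
  · exact quot_aux hX (hy.nn n) (hyx n) he0 hC.le (by positivity) hCe r1 r2

end Q78.Z3
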