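import Pool.Agent.Q78.Z3.Sys
import Pool.Agent.Q78.Z3.Seq

set_option autoImplicit false

/-! Self-avoiding walks on `ℤ³` in a random domain: Kesten's inequality, uniformly in the law of
the domain. -/

namespace Q78.Z3

open Finset Filter Topology MeasureTheory TH966.KO BR
open KN hiding SAP Inv K a bad mem_K S_ins_proof S_rem_proof S_change_proof
open scoped Classical

noncomputable section

/-- the points of a word -/
theorem wk_apply {n : ℕ} {w : List Dir} (hw : w.length = n) (i : Fin (n + 1)) :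
    wk n w i = E (pos (w.drop (n - i))) := by
  unfold wk
  rw [T_pos, hw]

theorem mem_path_iff {w : List Dir} (p : Z3) :
    p ∈ path w ↔ ∃ k, k ≤ w.length ∧ p = pos (w.drop k) := by
  have hl : (path w).length = w.length + 1 := path_length w
  rw [List.mem_iff_getElem]
  constructor
  · rintro ⟨k, hk, rfl⟩
    exact ⟨k, by omega, path_getElem w k (by omega)⟩
  · rintro ⟨k, hk, rfl⟩
    exact ⟨k, by omega, path_getElem w k (by omega)⟩

/-- the words of the `n`-step self-avoiding walks whose points are related to the end point -/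
def KR (R : V3 → V3 → Prop) (n : ℕ) : Finset (List Dir) :=
  (SS n).filter (fun w => ∀ p ∈ path w, R (E (pos w)) (E p))

theorem mem_KR {R : V3 → V3 → Prop} {n : ℕ} {w : List Dir} :
    w ∈ KR R n ↔ (w.length = n ∧ SAW w) ∧ ∀ p ∈ path w, R (E (pos w)) (E p) := by
  unfold KR
  rw [mem_filter, mem_SS]

theorem path_wk {n : ℕ} {w : List Dir} (hw : w.length = n) (Q : V3 → Prop) :
    (∀ p ∈ path w, Q (E p)) ↔ ∀ i : Fin (n + 1), Q (wk n w i) := by
  constructor
  · intro h i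
    rw [wk_apply hw]
    exact h _ ((mem_path_iff _).2 ⟨n - i, by omega, rfl⟩)
  · intro h p hp
    obtain ⟨k, hk, rfl⟩ := (mem_path_iff p).1 hp
    have h1 := h ⟨n - k, by omega⟩
    rw [wk_apply hw] at h1
    have e : n - (n - k) = k := by omega
    simp only [e] at h1
    exact h1

/-- restricted walks as functions -/
theorem card_KR_fun (R : V3 → V3 → Prop) (n : ℕ) :
    (KR R n).card = Nat.card {f : Fin (n + 1) → Fin 3 → ℤ //
      IsSAW n f ∧ ∀ i, R (f (Fin.last n)) (f i)} := by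
  have e : Nat.card {f : Fin (n + 1) → Fin 3 → ℤ // IsSAW n f ∧ ∀ i, R (f (Fin.last n)) (f i)} =
      Set.ncard {f : Fin (n + 1) → Fin 3 → ℤ | IsSAW n f ∧ ∀ i, R (f (Fin.last n)) (f i)} := by
    rw [← Nat.card_coe_set_eq]
    rfl
  have hsub : ((KR R n : Finset (List Dir)) : Set (List Dir)) ⊆ (SS n : Set (List Dir)) :=
    Finset.coe_subset.2 (Finset.filter_subset _ _)
  rw [e, ← Set.ncard_coe_finset, ← Set.ncard_image_of_injOn ((bij n).injOn.mono hsub)]
  congr 1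
  ext f
  rw [Set.mem_image]
  constructor
  · rintro ⟨w, hw, rfl⟩
    have hw1 := mem_KR.1 (Finset.mem_coe.1 hw)
    refine ⟨(bij n).mapsTo (hsub hw), ?_⟩
    rw [wk_last hw1.1.1]
    exact (path_wk hw1.1.1 _).1 hw1.2
  · rintro ⟨hf, hR⟩
    obtain ⟨w, hw, rfl⟩ := (bij n).surjOn hf
    have hw1 := mem_SS.1 (Finset.mem_coe.1 hw)
    rw [wk_last hw1.1] at hR
    exact ⟨w, Finset.mem_coe.2 (mem_KR.2 ⟨hw1, (path_wk hw1.1 _).2 hR⟩), rfl⟩

theorem c_fun (n : ℕ) : c n = Nat.card {f : Fin (n + 1) → Fin 3 → ℤ // IsSAW n f} := by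
  rw [← ncard_eq, ← Nat.card_coe_set_eq]
  rfl

theorem KR_eq (R : V3 → V3 → Prop) {n : ℕ} (hn : 4 ≤ n) :
    KR R n = KD (fun e => {x | R (E e) (E x)}) n := by
  ext w
  rw [mem_KR, mem_KD]
  constructor
  · rintro ⟨⟨h1, h2⟩, h3⟩
    exact ⟨⟨h1, by omega, h2⟩, h3⟩
  · rintro ⟨⟨h1, h2⟩, h3⟩
    exact ⟨⟨h1, h2.2⟩, h3⟩

/-- **Kesten's inequality, uniformly in the relation** -/
theorem kesR : ∃ (D θ : ℝ) (N : ℕ), 0 ≤ D ∧ 0 < θ ∧ θ < 1 ∧ ∀ R : V3 → V3 → Prop,
    Q78.UG.Kz 2 N D θ μ (fun n => ((KR R n).card : ℝ)) := by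
  obtain ⟨D, θ, N, hD, hθ0, hθ1, h⟩ := kesD
  refine ⟨D, θ, max N 4, hD, hθ0, hθ1, fun R => ⟨fun n => Nat.cast_nonneg _, fun n hn hbig => ?_⟩⟩
  have h4 : 4 ≤ n := (le_max_right _ _).trans hn
  have hN : N ≤ n := (le_max_left _ _).trans hn
  rw [KR_eq R (by omega : 4 ≤ n + 2)] at hbig
  rw [KR_eq R h4, KR_eq R (by omega : 4 ≤ n + 2), KR_eq R (by omega : 4 ≤ n + 2 * 2)]
  exact (h _).kes n hN hbig

/-- the mean number of walks in a random domain -/
def FF {Ω : Type} [MeasurableSpace Ω] (ν : Measure Ω) (R : Ω → V3 → V3 → Prop) (n : ℕ) : ℝ :=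
  ∫ ω, ((KR (R ω) n).card : ℝ) ∂ν

theorem card_sum {Ω : Type} (R : Ω → V3 → V3 → Prop) (n : ℕ) (ω : Ω) :
    ((KR (R ω) n).card : ℝ) =
      ∑ w ∈ SS n, Set.indicator {ω | ∀ p ∈ path w, R ω (E (pos w)) (E p)} (fun _ => (1 : ℝ)) ω := by
  unfold KR
  rw [Finset.card_filter]
  push_cast
  refine Finset.sum_congr rfl fun w _ => ?_
  rw [Set.indicator_apply]
  rfl

theorem meas_set {Ω : Type} [MeasurableSpace Ω] {R : Ω → V3 → V3 → Prop}
    (hR : ∀ e x, MeasurableSet {ω | R ω e x}) (w : List Dir) :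
    MeasurableSet {ω | ∀ p ∈ path w, R ω (E (pos w)) (E p)} := by
  have e : {ω | ∀ p ∈ path w, R ω (E (pos w)) (E p)} =
      ⋂ p ∈ (path w).toFinset, {ω | R ω (E (pos w)) (E p)} := by
    ext ω
    simp
  rw [e]
  exact Finset.measurableSet_biInter _ fun x _ => hR _ _

theorem integrable_card {Ω : Type} [MeasurableSpace Ω] (ν : Measure Ω) [IsProbabilityMeasure ν]
    {R : Ω → V3 → V3 → Prop} (hR : ∀ e x, MeasurableSet {ω | R ω e x}) (n : ℕ) :
    Integrable (fun ω => ((KR (R ω) n).card : ℝ)) ν := by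
  simp only [card_sum]
  refine integrable_finsetSum _ fun w _ => ?_
  exact (integrable_const (1 : ℝ)).indicator (meas_set hR w)

theorem FF_nonneg {Ω : Type} [MeasurableSpace Ω] (ν : Measure Ω) (R : Ω → V3 → V3 → Prop) (n : ℕ) :
    0 ≤ FF ν R n := integral_nonneg fun _ => Nat.cast_nonneg _

theorem card_KR_le (R : V3 → V3 → Prop) (n : ℕ) : ((KR R n).card : ℝ) ≤ c n := by
  rw [← card_SS]
  exact_mod_cast card_le_card (filter_subset _ _)

theorem FF_mono {Ω : Type} [MeasurableSpace Ω] (ν : Measure Ω) [IsProbabilityMeasure ν]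
    {R R' : Ω → V3 → V3 → Prop} (hR : ∀ e x, MeasurableSet {ω | R ω e x})
    (hR' : ∀ e x, MeasurableSet {ω | R' ω e x}) (h : ∀ ω e x, R' ω e x → R ω e x) (n : ℕ) :
    FF ν R' n ≤ FF ν R n := by
  refine integral_mono (integrable_card ν hR' n) (integrable_card ν hR n) fun ω => ?_
  have : KR (R' ω) n ⊆ KR (R ω) n := by
    intro w hw
    rw [mem_KR] at hw ⊢
    exact ⟨hw.1, fun x hx => h _ _ _ (hw.2 x hx)⟩
  show ((KR (R' ω) n).card : ℝ) ≤ ((KR (R ω) n).card : ℝ)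
  exact_mod_cast card_le_card this

theorem FF_le {Ω : Type} [MeasurableSpace Ω] (ν : Measure Ω) [IsProbabilityMeasure ν]
    {R : Ω → V3 → V3 → Prop} (hR : ∀ e x, MeasurableSet {ω | R ω e x}) (n : ℕ) :
    FF ν R n ≤ c n := by
  have h1 : FF ν R n ≤ ∫ _ : Ω, (c n : ℝ) ∂ν :=
    integral_mono (integrable_card ν hR n) (integrable_const _) fun ω => card_KR_le (R ω) n
  rwa [integral_const, probReal_univ, one_smul] at h1

/-- from `Kz` to normalised sequences -/
theorem Kz.cl {s N : ℕ} {D θ m : ℝ} {X : ℕ → ℝ} (h : Q78.UG.Kz s N D θ m X) (hm : 0 < m) :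
    Cl s N D θ (fun n => X n / m ^ n) := by
  refine ⟨fun n => div_nonneg (h.nn n) (by positivity), fun n hn hbig => ?_⟩
  have h1 : (θ * m) ^ (n + s) ≤ X (n + s) := by
    rw [mul_pow]
    rwa [le_div_iff₀ (by positivity)] at hbig
  have h2 := h.kes n hn h1
  have e3 : (m ^ (n + s)) ^ 2 = m ^ n * m ^ (n + 2 * s) := by
    rw [← pow_mul, ← pow_add]
    congr 1
    ring
  show (X (n + s) / m ^ (n + s)) ^ 2 ≤ X n / m ^ n * (X (n + 2 * s) / m ^ (n + 2 * s)) * (1 + D / n)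
  rw [div_pow, div_mul_div_comm, div_mul_eq_mul_div, e3]
  rw [div_le_div_iff_of_pos_right (by positivity)]
  exact h2

/-- **Kesten's inequality in a random domain** -/
theorem mixture : ∃ (D θ : ℝ) (N : ℕ), 0 ≤ D ∧ 0 < θ ∧ θ < 1 ∧
    ∀ (Ω : Type) [MeasurableSpace Ω] (ν : Measure Ω) [IsProbabilityMeasure ν]
      (R : Ω → V3 → V3 → Prop), (∀ e x, MeasurableSet {ω | R ω e x}) →
      Q78.UG.Kz 2 N D θ μ (FF ν R) := by
  obtain ⟨D, θ, N, hD, hθ0, hθ1, h⟩ := kesR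
  obtain ⟨N', -, h'⟩ := Q78.UG.mean (s := 2) (N := N) hD hθ0 hθ1
  refine ⟨D + 1, (1 + θ) / 2, N', by linarith, by linarith, by linarith, ?_⟩
  intro Ω _ ν _ R hR
  exact h' μ (by linarith [mu_one]) Ω ν (fun ω n => ((KR (R ω) n).card : ℝ))
    (fun n => integrable_card ν hR n) (fun ω => h (R ω))

end

end Q78.Z3
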