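import Pool.Agent.TH966.KO.WEnd
import Pool.Agent.Q294.Rs1
import Pool.Agent.Q78.UG.Abs

set_option autoImplicit false

/-! Self-avoiding walks on `ℤ³` (words, read from the end) whose vertices lie in a set which may
depend on the end point: the system of local moves and Kesten's inequality, uniformly in the set. -/

namespace Q78.Z3

open Finset TH966.KO TH966.AK Q294.Rs
open KN hiding SAP Inv K a bad mem_K S_ins_proof S_rem_proof S_change_proof
open KN.CHG hiding card_E1 card_E2 fr_down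
open scoped Classical

noncomputable section

/-- the two new vertices of a move -/
def okD (D : Z3 → Set Z3) (w : List Dir) (q : ℕ × Dir) : Prop :=
  pos (w.drop (q.1 + 1)) + vec q.2 ∈ D (pos w) ∧
    pos (w.drop (q.1 + 1)) + vec q.2 + vec (w.getD q.1 .xp) ∈ D (pos w)

/-- self-avoiding words of length `n ≥ 4` with all vertices in `D e`, `e` the end point -/
def KD (D : Z3 → Set Z3) (n : ℕ) : Finset (List Dir) :=
  (K (fun _ => True) n).filter (fun w => ∀ p ∈ path w, p ∈ D (pos w))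

def SD (D : Z3 → Set Z3) (w : List Dir) : Finset (ℕ × Dir) := (sites w).filter (okD D w)

def BD (w : List Dir) : Finset (ℕ × Dir) := (bumps w).image (fun j => (j, w.getD (j + 2) .xp))

theorem card_BD (w : List Dir) : (BD w).card = bu w := by
  unfold BD bu
  apply card_image_of_injective
  intro a b h
  simp only [Prod.mk.injEq] at h
  exact h.1

theorem mem_BD {w : List Dir} {q : ℕ × Dir} : q ∈ BD w ↔ bump w q.1 ∧ q.2 = w.getD (q.1 + 2) .xp := by
  unfold BD
  rw [mem_image]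
  constructor
  · rintro ⟨j, hj, rfl⟩
    exact ⟨mem_bumps.1 hj, rfl⟩
  · rintro ⟨h1, h2⟩
    exact ⟨q.1, mem_bumps.2 h1, Prod.ext rfl h2.symm⟩

theorem mem_SD {D : Z3 → Set Z3} {w : List Dir} {q : ℕ × Dir} :
    q ∈ SD D w ↔ site w q.1 q.2 ∧ okD D w q := by
  unfold SD
  rw [mem_filter]
  exact and_congr_left fun _ => mem_sites

theorem mem_KD {D : Z3 → Set Z3} {n : ℕ} {w : List Dir} :
    w ∈ KD D n ↔ (w.length = n ∧ SAP w) ∧ ∀ p ∈ path w, p ∈ D (pos w) := by
  unfold KD
  rw [mem_filter, mem_K]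
  simp only [and_true]

theorem pos_new (l1 l2 : List Dir) (d e : Dir) :
    pos (l1 ++ neg d :: e :: d :: l2) = pos (l1 ++ e :: l2) := by
  have h := pos_ins (l1 ++ e :: l2) l1.length d (by simp)
  have h2 : ins (l1 ++ e :: l2) l1.length d = l1 ++ neg d :: e :: d :: l2 := by
    unfold ins
    simp
  rwa [h2] at h

section
variable (l1 l2 : List Dir) (d e : Dir) (D : Z3 → Set Z3)

theorem ok_old (k : ℕ) (v : Dir) (hk : k ≠ l1.length) :
    okD D (l1 ++ neg d :: e :: d :: l2) (ph l1.length k, v) ↔ okD D (l1 ++ e :: l2) (k, v) := by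
  unfold okD
  show (pos ((l1 ++ neg d :: e :: d :: l2).drop (ph l1.length k + 1)) + vec v ∈
      D (pos (l1 ++ neg d :: e :: d :: l2)) ∧
    pos ((l1 ++ neg d :: e :: d :: l2).drop (ph l1.length k + 1)) + vec v +
      vec ((l1 ++ neg d :: e :: d :: l2).getD (ph l1.length k) .xp) ∈
        D (pos (l1 ++ neg d :: e :: d :: l2))) ↔ _
  rw [pos_old l1 l2 d e k hk, getD_old l1 l2 d e k hk, pos_new]

theorem frD_down (hw : SAP (l1 ++ e :: l2)) :
    (SD D (l1 ++ e :: l2)).card ≤ (SD D (l1 ++ neg d :: e :: d :: l2)).card + 28 := by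
  obtain ⟨-, hn⟩ := hw
  set w := l1 ++ e :: l2 with hwdef
  set A := pos l2 + vec d + vec e with hA
  set B := pos l2 + vec d with hB
  have hc := KN.CHG.card_le (SD D w) (E3 w l1.length ∪ (E1 w A ∪ (E1 w B ∪ (E2 w A ∪ E2 w B))))
    (SD D (l1 ++ neg d :: e :: d :: l2)) (fun q => (ph l1.length q.1, q.2)) ?_ ?_
  · have h1 := Finset.card_union_le (E3 w l1.length) (E1 w A ∪ (E1 w B ∪ (E2 w A ∪ E2 w B)))
    have h2 := Finset.card_union_le (E1 w A) (E1 w B ∪ (E2 w A ∪ E2 w B))
    have h3 := Finset.card_union_le (E1 w B) (E2 w A ∪ E2 w B)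
    have h4 := Finset.card_union_le (E2 w A) (E2 w B)
    have h5 := card_E3 w l1.length
    have h6 := TH966.KO.CHG.card_E1 w hn A
    have h7 := TH966.KO.CHG.card_E1 w hn B
    have h8 := TH966.KO.CHG.card_E2 w hn A
    have h9 := TH966.KO.CHG.card_E2 w hn B
    omega
  · rintro ⟨k, v⟩ hq hqE
    rw [mem_SD] at hq
    obtain ⟨hq, hok⟩ := hq
    simp only at hq
    simp only [Finset.mem_union, not_or] at hqE
    obtain ⟨hE3, hE1A, hE1B, hE2A, hE2B⟩ := hqE
    have hki : k ≠ l1.length := by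
      rintro rfl
      exact hE3 (mem_E3 hq)
    obtain ⟨q1, q2, q3, q4⟩ := hq
    rw [mem_SD]
    refine ⟨⟨lt_new l1 l2 d e q1 hki, ?_, ?_, ?_⟩, (ok_old l1 l2 d e D k v hki).2 hok⟩
    · show perp v ((l1 ++ neg d :: e :: d :: l2).getD (ph l1.length k) .xp)
      rw [getD_old l1 l2 d e k hki]; exact q2
    · show pos ((l1 ++ neg d :: e :: d :: l2).drop (ph l1.length k + 1)) + vec v ∉ _
      rw [pos_old l1 l2 d e k hki, mem_new]
      rintro (h | h | h)
      · exact q3 h
      · apply hE1A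
        unfold E1
        simp only [mem_filter, mem_product, mem_range, mem_univ, and_true]
        exact ⟨q1, h⟩
      · apply hE1B
        unfold E1
        simp only [mem_filter, mem_product, mem_range, mem_univ, and_true]
        exact ⟨q1, h⟩
    · show pos ((l1 ++ neg d :: e :: d :: l2).drop (ph l1.length k + 1)) + vec v +
        vec ((l1 ++ neg d :: e :: d :: l2).getD (ph l1.length k) .xp) ∉ _
      rw [pos_old l1 l2 d e k hki, getD_old l1 l2 d e k hki, mem_new]
      have hpd : pos (w.drop k) + vec v = pos (w.drop (k + 1)) + vec v + vec (w.getD k .xp) := by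
        rw [pos_drop w k q1]; abel
      rintro (h | h | h)
      · exact q4 h
      · apply hE2A
        unfold E2
        simp only [mem_filter, mem_product, mem_range, mem_univ, and_true]
        exact ⟨q1, hpd.trans h⟩
      · apply hE2B
        unfold E2
        simp only [mem_filter, mem_product, mem_range, mem_univ, and_true]
        exact ⟨q1, hpd.trans h⟩
  · rintro ⟨k, v⟩ hq hqE ⟨k', v'⟩ hq' hqE' h
    rw [mem_SD] at hq hq'
    simp only [Finset.mem_union, not_or] at hqE hqE'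
    have hki : k ≠ l1.length := by
      rintro rfl
      exact hqE.1 (mem_E3 hq.1)
    have hki' : k' ≠ l1.length := by
      rintro rfl
      exact hqE'.1 (mem_E3 hq'.1)
    simp only [Prod.mk.injEq] at h
    exact Prod.ext (ph_inj _ _ _ hki hki' h.1) h.2

theorem frD_up : (SD D (l1 ++ neg d :: e :: d :: l2)).card ≤ (SD D (l1 ++ e :: l2)).card + 12 := by
  set w' := l1 ++ neg d :: e :: d :: l2 with hwdef
  have hc := KN.CHG.card_le (SD D w') (E3 w' l1.length ∪ (E3 w' (l1.length + 1) ∪ E3 w' (l1.length + 2)))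
    (SD D (l1 ++ e :: l2)) (fun q => (ps l1.length q.1, q.2)) ?_ ?_
  · have h1 := Finset.card_union_le (E3 w' l1.length) (E3 w' (l1.length + 1) ∪ E3 w' (l1.length + 2))
    have h2 := Finset.card_union_le (E3 w' (l1.length + 1)) (E3 w' (l1.length + 2))
    have h5 := card_E3 w' l1.length
    have h6 := card_E3 w' (l1.length + 1)
    have h7 := card_E3 w' (l1.length + 2)
    omega
  · rintro ⟨k, v⟩ hq hqE
    rw [mem_SD] at hq
    obtain ⟨hq, hok⟩ := hq
    simp only at hq
    simp only [Finset.mem_union, not_or] at hqE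
    have k0 : k ≠ l1.length := by rintro rfl; exact hqE.1 (mem_E3 hq)
    have k1 : k ≠ l1.length + 1 := by rintro rfl; exact hqE.2.1 (mem_E3 hq)
    have k2 : k ≠ l1.length + 2 := by rintro rfl; exact hqE.2.2 (mem_E3 hq)
    obtain ⟨m1, m2⟩ := ph_ps l1.length k k0 k1 k2
    obtain ⟨q1, q2, q3, q4⟩ := hq
    rw [mem_SD]
    have g := getD_old l1 l2 d e (ps l1.length k) m2
    have p := pos_old l1 l2 d e (ps l1.length k) m2
    have o := ok_old l1 l2 d e D (ps l1.length k) v m2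
    rw [m1] at g p o
    refine ⟨⟨lt_old l1 l2 d e q1 k0 k1 k2, ?_, ?_, ?_⟩, o.1 hok⟩
    · show perp v ((l1 ++ e :: l2).getD (ps l1.length k) .xp)
      rw [← g]; exact q2
    · show pos ((l1 ++ e :: l2).drop (ps l1.length k + 1)) + vec v ∉ _
      rw [← p]
      intro h
      exact q3 ((mem_new l1 l2 d e _).2 (Or.inl h))
    · show pos ((l1 ++ e :: l2).drop (ps l1.length k + 1)) + vec v +
        vec ((l1 ++ e :: l2).getD (ps l1.length k) .xp) ∉ _
      rw [← p, ← g]
      intro h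
      exact q4 ((mem_new l1 l2 d e _).2 (Or.inl h))
  · rintro ⟨k, v⟩ hq hqE ⟨k', v'⟩ hq' hqE' h
    rw [mem_SD] at hq hq'
    simp only [Finset.mem_union, not_or] at hqE hqE'
    have k0 : k ≠ l1.length := by rintro rfl; exact hqE.1 (mem_E3 hq.1)
    have k1 : k ≠ l1.length + 1 := by rintro rfl; exact hqE.2.1 (mem_E3 hq.1)
    have k2 : k ≠ l1.length + 2 := by rintro rfl; exact hqE.2.2 (mem_E3 hq.1)
    have k0' : k' ≠ l1.length := by rintro rfl; exact hqE'.1 (mem_E3 hq'.1)
    have k1' : k' ≠ l1.length + 1 := by rintro rfl; exact hqE'.2.1 (mem_E3 hq'.1)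
    have k2' : k' ≠ l1.length + 2 := by rintro rfl; exact hqE'.2.2 (mem_E3 hq'.1)
    simp only [Prod.mk.injEq] at h
    have a1 := (ph_ps l1.length k k0 k1 k2).1
    have a2 := (ph_ps l1.length k' k0' k1' k2').1
    exact Prod.ext (by rw [← a1, ← a2, h.1]) h.2

end

theorem ins_form {w : List Dir} {i : ℕ} {d : Dir} (hi : i < w.length) :
    w = w.take i ++ w.getD i .xp :: w.drop (i + 1) ∧
    ins w i d = w.take i ++ neg d :: w.getD i .xp :: d :: w.drop (i + 1) := by
  refine ⟨?_, ?_⟩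
  · conv_lhs => rw [← List.take_append_drop i w, drop_eq_getD_cons w i hi]
  · unfold ins; simp

theorem frD_change {w : List Dir} {i : ℕ} {d : Dir} (D : Z3 → Set Z3) (hw : SAP w) (hs : site w i d) :
    (SD D w).card ≤ (SD D (ins w i d)).card + 28 ∧ (SD D (ins w i d)).card ≤ (SD D w).card + 12 := by
  obtain ⟨h1, h2⟩ := ins_form (d := d) hs.1
  have c1 := frD_down (w.take i) (w.drop (i + 1)) d (w.getD i .xp) D (h1 ▸ hw)
  have c2 := frD_up (w.take i) (w.drop (i + 1)) d (w.getD i .xp) D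
  rw [← h2, ← h1] at c1 c2
  exact ⟨c1, c2⟩

/-- the vertices after an insertion -/
theorem mem_path_ins {w : List Dir} {i : ℕ} {d : Dir} (hi : i < w.length) (p : Z3) :
    p ∈ path (ins w i d) ↔ p ∈ path w ∨ p = pos (w.drop (i + 1)) + vec d + vec (w.getD i .xp) ∨
      p = pos (w.drop (i + 1)) + vec d := by
  obtain ⟨h1, h2⟩ := ins_form (d := d) hi
  have h := mem_new (w.take i) (w.drop (i + 1)) d (w.getD i .xp) p
  rw [← h2, ← h1] at h
  exact h

/-- the end point after an insertion -/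
theorem pos_ins' {w : List Dir} {i : ℕ} {d : Dir} (hi : i < w.length) : pos (ins w i d) = pos w :=
  pos_ins w i d hi

/-- the system of local moves -/
def sysD (D : Z3 → Set Z3) : Sys (List Dir) (ℕ × Dir) where
  K := KD D
  S := SD D
  B := BD
  ins w q := ins w q.1 q.2
  rem w q := rem w q.1
  s := 2
  C := 28
  n0 := 4
  hC := by norm_num
  ins_K := by
    intro n w q hw hq
    rw [mem_KD] at hw ⊢
    rw [mem_SD] at hq
    obtain ⟨h1, h2, h3, h4, h5⟩ := TH966.KO.S_ins_proof w q.1 q.2 hw.1.2 hq.1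
    refine ⟨⟨by rw [h2, hw.1.1], h1⟩, fun p hp => ?_⟩
    rw [pos_ins' hq.1.1]
    rw [mem_path_ins hq.1.1] at hp
    rcases hp with hp | hp | hp
    · exact hw.2 p hp
    · rw [hp]; exact hq.2.2
    · rw [hp]; exact hq.2.1
  ins_B := by
    intro n w q hw hq
    rw [mem_KD] at hw
    rw [mem_SD] at hq
    obtain ⟨h1, h2, h3, h4, h5⟩ := TH966.KO.S_ins_proof w q.1 q.2 hw.1.2 hq.1
    rw [mem_BD]
    exact ⟨h3, h5.symm⟩
  rem_ins := by
    intro n w q hw hq
    rw [mem_KD] at hw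
    rw [mem_SD] at hq
    exact (TH966.KO.S_ins_proof w q.1 q.2 hw.1.2 hq.1).2.2.2.1
  rem_K := by
    intro n w q hn hw hq
    rw [mem_KD] at hw ⊢
    rw [mem_BD] at hq
    obtain ⟨h1, h2, h3, h4⟩ := TH966.KO.S_rem_proof w q.1 hw.1.2 (by omega) hq.1
    have hp0 : pos (rem w q.1) = pos w := by
      conv_rhs => rw [← h4]
      exact (pos_ins' h3.1).symm
    refine ⟨⟨by omega, h1⟩, fun p hp => ?_⟩
    rw [hp0]
    refine hw.2 p ?_
    rw [← h4, mem_path_ins h3.1]
    exact Or.inl hp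
  rem_S := by
    intro n w q hn hw hq
    rw [mem_KD] at hw
    rw [mem_BD] at hq
    obtain ⟨h1, h2, h3, h4⟩ := TH966.KO.S_rem_proof w q.1 hw.1.2 (by omega) hq.1
    have hp0 : pos (rem w q.1) = pos w := by
      conv_rhs => rw [← h4]
      exact (pos_ins' h3.1).symm
    have k1 := (mem_path_ins (d := w.getD (q.1 + 2) .xp) h3.1 _).2 (Or.inr (Or.inr rfl))
    have k2 := (mem_path_ins (d := w.getD (q.1 + 2) .xp) h3.1 _).2 (Or.inr (Or.inl rfl))
    rw [h4] at k1 k2
    rw [mem_SD]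
    refine ⟨by rw [hq.2]; exact h3, ?_, ?_⟩
    · rw [hq.2, hp0]; exact hw.2 _ k1
    · rw [hq.2, hp0]; exact hw.2 _ k2
  ins_rem := by
    intro n w q hn hw hq
    rw [mem_KD] at hw
    rw [mem_BD] at hq
    obtain ⟨h1, h2, h3, h4⟩ := TH966.KO.S_rem_proof w q.1 hw.1.2 (by omega) hq.1
    rw [hq.2]
    exact h4
  chS1 := by
    intro n w q hw hq
    rw [mem_KD] at hw
    rw [mem_SD] at hq
    exact (frD_change D hw.1.2 hq.1).1
  chS2 := by
    intro n w q hw hq
    rw [mem_KD] at hw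
    rw [mem_SD] at hq
    have := (frD_change D hw.1.2 hq.1).2
    omega
  chB1 := by
    intro n w q hw hq
    rw [mem_KD] at hw
    rw [mem_SD] at hq
    have := (TH966.KO.S_change_proof w q.1 q.2 hw.1.2 hq.1).2.2.2
    rw [card_BD, card_BD]
    omega
  chB2 := by
    intro n w q hw hq
    rw [mem_KD] at hw
    rw [mem_SD] at hq
    have := (TH966.KO.S_change_proof w q.1 q.2 hw.1.2 hq.1).2.2.1
    rw [card_BD, card_BD]
    omega
  S_le := by
    intro n w hw
    rw [mem_KD] at hw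
    have h1 := KN.CONV.fr_le w
    have h2 : (SD D w).card ≤ fr w := card_filter_le _ _
    rw [hw.1.1] at h1
    omega

theorem card_KD_le (D : Z3 → Set Z3) (n : ℕ) : (KD D n).card ≤ a (fun _ => True) n :=
  card_filter_le _ _

/-- **Kesten's inequality, uniformly in the domain** -/
theorem kesD :
    ∃ (C θ : ℝ) (N : ℕ), 0 ≤ C ∧ 0 < θ ∧ θ < 1 ∧ ∀ D : Z3 → Set Z3,
      Q78.UG.Kz 2 N C θ μ (fun n => ((KD D n).card : ℝ)) := by
  have hμ1 : 77 / 20 ≤ μ := mu_ge
  have hμ5 : μ ≤ 5 := mu_le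
  have hμ : 1 ≤ μ := by linarith
  have hμ0 : 0 < μ := by linarith
  have hinv : Inv (fun _ => True) := fun w _ i d _ => Iff.rfl
  have hup : ∀ τ : ℝ, 0 < τ → ∃ C1 : ℝ, ∀ n : ℕ, (a (fun _ => True) n : ℝ) ≤
      C1 * ((1 + τ) * μ) ^ n := by
    intro τ hτ
    obtain ⟨C, _, hC⟩ := growth τ hτ
    refine ⟨C, fun n => le_trans ?_ (hC n)⟩
    exact_mod_cast a_le n
  obtain ⟨θ0, C0, hθ0, hθ01, hbad⟩ := o_pattern (fun _ => True) hinv μ (by linarith) hμ5 hup
  obtain ⟨M, θ, C', hM, hθ, hθ1, hC', hpat⟩ := patternU (α := List Dir) (σ := ℕ × Dir)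
    (C0 := C0) (ρ := θ0 * μ) 28 2 4 (10 ^ 7) (by norm_num) hμ (by positivity)
    (by nlinarith) (u := fun n => (a (fun _ => True) n : ℝ)) hup
  have hconv := convexU (α := List Dir) (σ := ℕ × Dir) 28 2 4 M hM μ θ ((1 + θ) / 2) C'
    hμ0 hθ (by linarith)
  obtain ⟨N, hN⟩ := Filter.eventually_atTop.1 hconv
  refine ⟨8 * (6 * (28 : ℕ) * M + 1), (1 + θ) / 2, N, by positivity, by linarith, by linarith, ?_⟩
  intro D
  refine ⟨fun n => Nat.cast_nonneg _, fun n hn hbig => ?_⟩
  have hKle : ∀ n, (((sysD D).K n).card : ℝ) ≤ a (fun _ => True) n := by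
    intro n
    exact_mod_cast card_KD_le D n
  have hB : ∀ n : ℕ, ((((sysD D).K n).filter
      (fun w => 10 ^ 7 * ((sysD D).B w).card ≤ n)).card : ℝ) ≤ C0 * (θ0 * μ) ^ n := by
    intro n
    refine le_trans ?_ (hbad n)
    have h1 : ((sysD D).K n).filter (fun w => 10 ^ 7 * ((sysD D).B w).card ≤ n) ⊆
        (K (fun _ => True) n).filter (fun w => 10 ^ 7 * fr w ≤ n ∨ 10 ^ 7 * bu w ≤ n) := by
      intro w hw
      rw [mem_filter] at hw ⊢
      have hw1 : w ∈ KD D n := hw.1
      have hw2 : 10 ^ 7 * (BD w).card ≤ n := hw.2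
      rw [mem_KD] at hw1
      rw [card_BD] at hw2
      exact ⟨mem_K.2 ⟨hw1.1.1, hw1.1.2, trivial⟩, Or.inr hw2⟩
    exact_mod_cast card_le_card h1
  have hb := hpat (sysD D) rfl rfl rfl hKle hB
  have h1 := hN n hn (sysD D) rfl rfl rfl (fun _ => 1)
    ⟨fun _ _ _ => zero_le_one, fun _ _ _ _ _ => rfl⟩ (fun n => by
      have := hb n
      unfold Sys.badf
      simpa using this)
  have haf : ∀ n, (sysD D).af (fun _ => 1) n = ((KD D n).card : ℝ) := by
    intro n
    unfold Sys.af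
    rw [Finset.sum_const, nsmul_eq_mul, mul_one]
    rfl
  rw [haf, haf, haf] at h1
  have h2 := h1 hbig
  rw [show n + 2 * 2 = n + 2 + 2 by ring]
  exact h2

end

end Q78.Z3
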